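import Pool.Agent.N352.PF.Cnt
import Pool.Agent.N783.PF.Loc

/-!
Statements: the family of project PF with prescribed residues at the prime ideals over `3`.
-/

set_option autoImplicit false

open Polynomial NumberField IsDedekindDomain
open scoped Classical

namespace Pool.Agent.K9h33.ORP

open Pool.Agent.N352.PJ (dd)
open Pool.Agent.N352.PF (rv)
open Pool.Agent.N783.PF (Cg sp rd Ht GoodS GoodF Fam)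

/-- the residue modulo `3` -/
noncomputable def f3 (R : Type) [CommRing R] (g : ℕ) : R[X] := X ^ (2 * g + 1) - X - 1

/-- `S_GF` with prescribed residues modulo the prime ideals over `3` -/
def S_GF3 : Prop := ∀ (F : Type) [Field F] [NumberField F] (g M : ℕ), 1 ≤ g →
  ∃ (W : ℕ) (f₁ : (𝓞 F)[X]), f₁.Monic ∧ f₁.natDegree = 2 * g + 1 ∧ f₁.coeff (2 * g) = 0 ∧ 0 < W ∧
    2 ∣ W ∧ 3 ∣ W ∧
    (∀ v : HeightOneSpectrum (𝓞 F), (2 : 𝓞 F) ∈ v.asIdeal → Irreducible (rv v f₁)) ∧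
    (∀ v : HeightOneSpectrum (𝓞 F), (3 : 𝓞 F) ∈ v.asIdeal → rv v f₁ = f3 _ g) ∧
    (∀ v : HeightOneSpectrum (𝓞 F), (W : 𝓞 F) ∈ v.asIdeal → (rv v f₁).Separable) ∧
    ∀ p : ℕ, p.Prime → p ≤ M → p ∣ W

/-- `S_FAM` with prescribed residues modulo the prime ideals over `3` -/
def S_FAM3 : Prop := ∀ (F : Type) [Field F] [NumberField F] (g : ℕ), 1 ≤ g →
  ∀ K : ℕ, ∃ (W : ℕ) (f₁ : (𝓞 F)[X]), K ≤ W ∧ GoodF g W f₁ ∧ 3 ∣ W ∧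
  (∀ 𝔭 : Ideal (𝓞 F), 𝔭.IsPrime → (3 : 𝓞 F) ∈ 𝔭 → rd 𝔭 f₁ = f3 _ g) ∧
  ∃ c : ℝ, 0 < c ∧ ∀ (S : Finset ℕ) (𝔮 : ℕ → Ideal (𝓞 F)) (h P : ℕ → (𝓞 F)[X]),
    GoodS g W S 𝔮 h P → ∃ B₀ : ℕ, ∀ B ≥ B₀,
    c * (B : ℝ) ^ (Module.finrank ℚ F * dd g) ≤
      (((∏ q ∈ S, q ^ (2 * g)) ^ Module.finrank ℚ F : ℕ) : ℝ) *
      ({f : (𝓞 F)[X] | Fam g B W f₁ S P f}.ncard : ℝ)

/-- `S_EXS` with primes congruent to `1` modulo `3` -/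
def S_EXS3 : Prop := ∀ (F : Type) [Field F] [NumberField F] (g W : ℕ), 1 ≤ g → ∀ m : ℕ,
  ∃ (S : Finset ℕ) (𝔮 : ℕ → Ideal (𝓞 F)) (h P : ℕ → (𝓞 F)[X]),
    GoodS g W S 𝔮 h P ∧ S.card = m ∧ ∀ q ∈ S, q % 3 = 1

/-- the residues of `f` modulo the prime ideals over `3` -/
def R3 {F : Type} [Field F] [NumberField F] (g : ℕ) (f : (𝓞 F)[X]) : Prop :=
  ∀ 𝔭 : Ideal (𝓞 F), 𝔭.IsPrime → (3 : 𝓞 F) ∈ 𝔭 → rd 𝔭 f = f3 _ g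

open Pool.Agent.N783.PF (fF SelZero Min)

/-- `S_MAIN` with prescribed residues modulo the prime ideals over `3` -/
def S_MAIN3 : Prop := ∀ (g : ℕ) (F : Type) [Field F] [NumberField F], 1 ≤ g →
  ∃ c : ℝ, 0 < c ∧ ∃ B₀ : ℕ, ∀ B ≥ B₀,
  {f : (𝓞 F)[X] | Ht g B f}.Finite ∧ c * ({f : (𝓞 F)[X] | Ht g B f}.ncard : ℝ) ≤
    ({f : (𝓞 F)[X] | Ht g B f ∧ Irreducible (fF f) ∧ SelZero f ∧ Min g f ∧ R3 g f}.ncard : ℝ)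

end Pool.Agent.K9h33.ORP
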