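import Pool.Agent.N710.PF.Exs
import Pool.Agent.K9h33.ORP.St

/-!
The sets of primes, congruent to `1` modulo `24`. Adapted from `N710/PF/Exs.lean` (helper710) and
`N262/PQ/Exs.lean` (helper262).
-/

set_option autoImplicit false
set_option linter.all false

open Polynomial NumberField
open scoped Classical

namespace Pool.Agent.K9h33.ORP

open Pool.Agent.N783.PF
open Pool.Agent.N710.PF

/-- arbitrarily many primes which are `1` modulo `24` and larger than `M` -/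
theorem exists_primes24 (M r : ℕ) :
    ∃ S : Finset ℕ, S.card = r ∧ ∀ q ∈ S, q.Prime ∧ M < q ∧ q % 24 = 1 := by
  classical
  induction r with
  | zero => exact ⟨∅, rfl, by simp⟩
  | succ r ih =>
    obtain ⟨S, hS, hS2⟩ := ih
    obtain ⟨q, hq1, hq2, hq3⟩ := Nat.forall_exists_prime_gt_and_eq_mod (q := 24) (a := 1)
      isUnit_one (M + ∑ i ∈ S, i)
    have h8 : q % 24 = 1 := by
      have h : ((q : ℕ) : ZMod 24) = ((1 : ℕ) : ZMod 24) := by rw [hq3, Nat.cast_one]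
      have := (ZMod.natCast_eq_natCast_iff' q 1 24).mp h
      simpa using this
    have hqS : q ∉ S := by
      intro h
      have := Finset.single_le_sum (f := fun i : ℕ => i) (fun i _ => Nat.zero_le i) h
      omega
    refine ⟨insert q S, by rw [Finset.card_insert_of_notMem hqS, hS], fun i hi => ?_⟩
    rw [Finset.mem_insert] at hi
    rcases hi with rfl | hi
    · exact ⟨hq2, by omega, h8⟩
    · exact hS2 i hi

/-- EXS -/
theorem exs3 : S_EXS3 := by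
  intro F _ _ g W hg m
  obtain ⟨S, hS, hS2⟩ := exists_primes24 (W + (2 * g + 1) + (discr F).natAbs) m
  have hdata : ∀ q : ℕ, ∃ (𝔮 : Ideal (𝓞 F)) (h A : (𝓞 F)[X]), q ∈ S →
    (∀ 𝔭 : Ideal (𝓞 F), 𝔭.IsPrime → (q : 𝓞 F) ∉ 𝔭 ^ 2) ∧
    𝔮.IsPrime ∧ (q : 𝓞 F) ∈ 𝔮 ∧
    h.Monic ∧ h.natDegree = 2 * g ∧ Irreducible (rd 𝔮 h) ∧
    A.Monic ∧ A.natDegree = 2 * g + 1 ∧ A.coeff (2 * g) = 0 ∧
    Cg 𝔮 A (X * h) ∧
    ∀ 𝔭 : Ideal (𝓞 F), 𝔭.IsPrime → (q : 𝓞 F) ∈ 𝔭 → 𝔭 ≠ 𝔮 → Irreducible (rd 𝔭 A) := by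
    intro q
    by_cases hq : q ∈ S
    · obtain ⟨h1, h2, h3⟩ := hS2 q hq
      obtain ⟨𝔮, h, A, hh⟩ := exists_data F g q hg h1 (by omega) (by omega)
      exact ⟨𝔮, h, A, fun _ => hh⟩
    · exact ⟨⊥, 0, 0, fun h => absurd h hq⟩
  choose 𝔮 h A hh using hdata
  refine ⟨S, 𝔮, h, A, fun q hq => ?_, hS, fun q hq => by
    obtain ⟨h1, h2, h3⟩ := hS2 q hq
    omega⟩
  obtain ⟨h1, h2, h3⟩ := hS2 q hq
  exact ⟨h1, by omega, by omega, by omega, hh q hq⟩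

end Pool.Agent.K9h33.ORP
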