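import Pool.Agent.N823.PF.Gf
import Pool.Agent.K9h33.ORP.St

/-!
The conditions at the small prime ideals, with prescribed residues modulo `3`. Adapted from
`N823/PF/Gf.lean` (helper823).
-/

set_option autoImplicit false

open Polynomial NumberField IsDedekindDomain

namespace Pool.Agent.K9h33.ORP

open Pool.Agent.N352.PF

lemma f3_monic (R : Type) [CommRing R] [Nontrivial R] (g : ℕ) (hg : 1 ≤ g) : (f3 R g).Monic ∧
    (f3 R g).natDegree = 2 * g + 1 ∧ (f3 R g).coeff (2 * g) = 0 := by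
  have hd : (X + 1 : R[X]).degree < ((2 * g + 1 : ℕ) : WithBot ℕ) := by
    rw [show (X + 1 : R[X]) = X + C 1 by rw [C_1], degree_X_add_C]
    exact_mod_cast (by omega : 1 < 2 * g + 1)
  have he : f3 R g = X ^ (2 * g + 1) - (X + 1) := by
    unfold f3
    ring
  refine ⟨?_, ?_, ?_⟩
  · rw [he]
    exact monic_X_pow_sub hd
  · rw [he, natDegree_sub_eq_left_of_natDegree_lt, natDegree_X_pow]
    rw [natDegree_X_pow, show (X + 1 : R[X]) = X + C 1 by rw [C_1], natDegree_X_add_C]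
    omega
  · unfold f3
    rw [coeff_sub, coeff_sub, coeff_X_pow, if_neg (by omega), coeff_X, if_neg (by omega), coeff_one,
      if_neg (by omega), sub_zero, sub_zero]

/-- divisibility -/
lemma sub_one_dvd_pow {R : Type} [CommRing R] (n : ℕ) : (X - 1 : R[X]) ∣ X ^ n - 1 := by
  simpa using sub_dvd_pow_sub_pow (X : R[X]) 1 n

/-- separability in characteristic `3` -/
lemma f3_sep (R : Type) [CommRing R] (h3 : (3 : R) = 0) (g : ℕ) : (f3 R g).Separable := by
  obtain ⟨n, hn⟩ : ∃ n, n = 2 * g := ⟨_, rfl⟩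
  have hder : derivative (f3 R g) = C ((n + 1 : ℕ) : R) * X ^ n - 1 := by
    unfold f3
    rw [derivative_sub, derivative_sub, derivative_X_pow, derivative_X, derivative_one, sub_zero, hn,
      Nat.add_sub_cancel]
  have hf : f3 R g = X ^ (n + 1) - X - 1 := by
    rw [hn]
    rfl
  unfold Polynomial.Separable
  rw [hder, hf]
  have h3' : (3 : R[X]) = 0 := by
    have := congrArg (C : R → R[X]) h3
    rwa [C_0, map_ofNat] at this
  obtain ⟨k, hk | hk | hk⟩ : ∃ k, n + 1 = 3 * k ∨ n + 1 = 3 * k + 1 ∨ n + 1 = 3 * k + 2 :=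
    ⟨(n + 1) / 3, by omega⟩
  · refine ⟨0, -1, ?_⟩
    rw [hk]
    push_cast
    rw [h3]
    simp
  · refine ⟨-1, X, ?_⟩
    rw [hk]
    push_cast
    rw [h3, zero_mul, zero_add, C_1]
    have hk' : n = 3 * k := by omega
    rw [hk']
    ring
  · have hk' : n = 3 * k + 1 := by omega
    obtain ⟨q, hq⟩ : (X - 1 : R[X]) ∣ X ^ (n + 1) - X := by
      have h1 := sub_one_dvd_pow (R := R) n
      have h2 : (X ^ (n + 1) - X : R[X]) = X * (X ^ n - 1) := by ring
      rw [h2]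
      exact h1.mul_left X
    have h5 : C ((n + 1 : ℕ) : R) = (2 : R[X]) := by
      rw [hk]
      push_cast
      rw [h3, zero_mul, zero_add, map_ofNat]
    refine ⟨q * (-2) - 1, q * X, ?_⟩
    rw [h5]
    linear_combination (-1 : R[X]) * hq + q * h3'

/-- one prime ideal -/
theorem exists_v3 (F : Type) [Field F] [NumberField F] (g : ℕ) (hg : 1 ≤ g)
    (v : HeightOneSpectrum (𝓞 F)) : ∃ f : (𝓞 F ⧸ v.asIdeal)[X], f.Monic ∧
    f.natDegree = 2 * g + 1 ∧ f.coeff (2 * g) = 0 ∧ f.Separable ∧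
    ((2 : 𝓞 F) ∈ v.asIdeal → Irreducible f) ∧ ((3 : 𝓞 F) ∈ v.asIdeal → f = f3 _ g) := by
  by_cases h : (3 : 𝓞 F) ∈ v.asIdeal
  · have hnt : Nontrivial (𝓞 F ⧸ v.asIdeal) := Ideal.Quotient.nontrivial_iff.mpr v.isPrime.ne_top
    obtain ⟨h1, h2, h4⟩ := f3_monic (𝓞 F ⧸ v.asIdeal) g hg
    have h5 : (3 : 𝓞 F ⧸ v.asIdeal) = 0 := by
      have h6 := Ideal.Quotient.eq_zero_iff_mem.2 h
      rwa [map_ofNat] at h6
    refine ⟨f3 _ g, h1, h2, h4, f3_sep _ h5 g, fun h2m => ?_, fun _ => rfl⟩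
    exfalso
    apply v.isPrime.ne_top
    rw [Ideal.eq_top_iff_one]
    have : (1 : 𝓞 F) = 3 - 2 := by norm_num
    rw [this]
    exact Ideal.sub_mem _ h h2m
  · obtain ⟨f, h1, h2, h3, h4, h5⟩ := Pool.Agent.N823.PF.exists_v F g hg v
    exact ⟨f, h1, h2, h3, h4, h5, fun hc => absurd hc h⟩

theorem gf3 : S_GF3 := by
  intro F _ _ g M hg
  classical
  set W : ℕ := primorial (max M 3) with hW
  have hWp : ∀ p : ℕ, p.Prime → p ≤ max M 3 → p ∣ W := fun p hp h =>
    (hp.dvd_primorial_iff).mpr h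
  have hW0 : 0 < W := primorial_pos _
  choose f hf1 hf2 hf3 hf4 hf5 hf6 using exists_v3 F g hg
  have hWne : Ideal.span {(W : 𝓞 F)} ≠ 0 := by
    rw [Ne, Ideal.zero_eq_bot, Ideal.span_singleton_eq_bot]
    exact_mod_cast hW0.ne'
  have hfinS := Ideal.finite_factors hWne
  set T : Finset (HeightOneSpectrum (𝓞 F)) := hfinS.toFinset with hT
  have hmem : ∀ v : HeightOneSpectrum (𝓞 F), (W : 𝓞 F) ∈ v.asIdeal → v ∈ T := by
    intro v hv
    rw [hT, Set.Finite.mem_toFinset, Set.mem_setOf_eq, Ideal.dvd_span_singleton]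
    exact hv
  have hcrt : ∀ j : ℕ, ∃ a : 𝓞 F, ∀ v ∈ T, Ideal.Quotient.mk v.asIdeal a = (f v).coeff j := by
    intro j
    have hx : ∀ v : HeightOneSpectrum (𝓞 F), ∃ x : 𝓞 F,
        Ideal.Quotient.mk v.asIdeal x = (f v).coeff j := fun v =>
      Ideal.Quotient.mk_surjective _
    choose x hx using hx
    obtain ⟨a, ha⟩ := IsDedekindDomain.exists_forall_sub_mem_ideal (s := T)
      (fun v => v.asIdeal) (fun _ => 1) (fun v _ => v.prime)
      (fun v _ w _ hvw h => hvw (HeightOneSpectrum.ext h)) (fun v => x v)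
    refine ⟨a, fun v hv => ?_⟩
    have h1 := ha v hv
    rw [pow_one] at h1
    rw [← hx v]
    exact (Ideal.Quotient.mk_eq_mk_iff_sub_mem _ _).2 h1
  choose a ha using hcrt
  set P : (𝓞 F)[X] := ∑ i ∈ Finset.range (2 * g), C (a i) * X ^ i with hP
  have hPd : P.degree < ((2 * g : ℕ) : WithBot ℕ) := by
    rw [hP]
    refine lt_of_le_of_lt (degree_sum_le _ _) ?_
    rw [Finset.sup_lt_iff (WithBot.bot_lt_coe _)]
    intro i hi
    refine lt_of_le_of_lt (degree_C_mul_X_pow_le _ _) ?_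
    exact_mod_cast Finset.mem_range.mp hi
  have hPd2 : P.degree < ((2 * g + 1 : ℕ) : WithBot ℕ) :=
    hPd.trans (by exact_mod_cast (by omega : 2 * g < 2 * g + 1))
  have hnd : (X ^ (2 * g + 1) + P).natDegree = 2 * g + 1 := by
    rw [natDegree_add_eq_left_of_degree_lt (by rw [degree_X_pow]; exact hPd2), natDegree_X_pow]
  have hmap : ∀ v ∈ T, rv v (X ^ (2 * g + 1) + P) = f v := by
    intro v hv
    conv_rhs => rw [(hf1 v).as_sum, hf2 v]
    rw [rv, Polynomial.map_add, Polynomial.map_pow, map_X, hP, Polynomial.map_sum]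
    congr 1
    rw [Finset.sum_range_succ, hf3 v, C_0, zero_mul, add_zero]
    refine Finset.sum_congr rfl fun i _ => ?_
    rw [Polynomial.map_mul, map_C, Polynomial.map_pow, map_X, ha i v hv]
  have h2W : 2 ∣ W := hWp 2 Nat.prime_two (le_trans (by norm_num) (le_max_right _ _))
  have h3W : 3 ∣ W := hWp 3 Nat.prime_three (le_max_right _ _)
  refine ⟨W, X ^ (2 * g + 1) + P, monic_X_pow_add hPd2, hnd, ?_, hW0, h2W, h3W, ?_, ?_, ?_,
    fun p hp hpM => hWp p hp (hpM.trans (le_max_left _ _))⟩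
  · rw [coeff_add, coeff_X_pow, if_neg (by omega), coeff_eq_zero_of_degree_lt hPd, add_zero]
  · intro v hv
    have hWv : (W : 𝓞 F) ∈ v.asIdeal := by
      obtain ⟨m, hm⟩ := h2W
      rw [hm, Nat.cast_mul, Nat.cast_ofNat]
      exact Ideal.mul_mem_right _ _ hv
    rw [hmap v (hmem v hWv)]
    exact hf5 v hv
  · intro v hv
    have hWv : (W : 𝓞 F) ∈ v.asIdeal := by
      obtain ⟨m, hm⟩ := h3W
      rw [hm, Nat.cast_mul, Nat.cast_ofNat]
      exact Ideal.mul_mem_right _ _ hv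
    rw [hmap v (hmem v hWv)]
    exact hf6 v hv
  · intro v hv
    rw [hmap v (hmem v hv)]
    exact hf4 v

end Pool.Agent.K9h33.ORP
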