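import Pool.Agent.N783.PF.Final
import Pool.Agent.K9h33.ORP.Gf3
import Pool.Agent.K9h33.ORP.Fam3
import Pool.Agent.K9h33.ORP.Exs3
import Pool.Agent.K9h33.ORP.Main3

/-!
Assembly: a positive proportion, with prescribed residues modulo the prime ideals over `3`.
-/

set_option autoImplicit false

namespace Pool.Agent.K9h33.ORP

open Pool.Agent.N352.PF

theorem famT3 : S_FAM3 :=
  fam3 bxT
    (Pool.Agent.N352.PF.SML99.sml Pool.Agent.N75.PF.cu bxT Pool.Agent.N189.PF.ld Pool.Agent.N195.PF.pr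
      Pool.Agent.N195.PF.pf)
    Pool.Agent.N935.PF.WK.wk
    (Pool.Agent.N352.PF.STR331.str Pool.Agent.N75.PF.cu Pool.Agent.N364.PF.cl Pool.Agent.N195.PF.pf)
    Pool.Agent.N195.PF.dscp gf3 Pool.Agent.N195.PF.pf

theorem mainT3 : S_MAIN3 :=
  main3 Pool.Agent.N490.PF.pts famT3 Pool.Agent.N783.PF.bad exs3 Pool.Agent.N783.PF.tw

end Pool.Agent.K9h33.ORP
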