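import Mathlib

/-!
Ideal classes: exponents of finitely generated abelian groups divisible by `2`, principal powers.
-/

set_option autoImplicit false

namespace Pool.Agent.K9h33.ORP

open Polynomial nonZeroDivisors

/-- a finitely generated group in which every element is a square has odd exponent -/
lemma exists_odd_exp {G : Type} [CommGroup G] (hfg : Group.FG G)
    (hs : Function.Surjective fun P : G => P ^ 2) : ∃ r : ℕ, Odd r ∧ ∀ P : G, P ^ r = 1 := by
  have h1 : AddGroup.FG (Additive G) := GroupFG.iff_add_fg.1 hfg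
  have h2 : Module.Finite ℤ (Additive G) := Module.Finite.iff_addGroup_fg.2 h1
  obtain ⟨r, hr, hr2⟩ := Submodule.exists_sub_one_mem_and_smul_eq_zero_of_fg_of_le_smul
    (Ideal.span {(2 : ℤ)}) (⊤ : Submodule ℤ (Additive G)) h2.fg_top (by
      intro x _
      obtain ⟨y, hy⟩ := hs (Additive.toMul x)
      have e : x = (2 : ℤ) • (Additive.ofMul y) := by
        apply Additive.toMul.injective
        rw [← hy]
        rw [toMul_zsmul]
        simp only [toMul_ofMul]
        norm_cast
      rw [e]
      exact Submodule.smul_mem_smul (Ideal.mem_span_singleton_self _) trivial)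
  rw [Ideal.mem_span_singleton] at hr
  have hodd : Odd r := by
    obtain ⟨k, hk⟩ := hr
    exact ⟨k, by linarith⟩
  refine ⟨r.natAbs, Int.natAbs_odd.2 hodd, fun P => ?_⟩
  have h3 := hr2 (Additive.ofMul P) trivial
  have h4 : P ^ r = 1 := h3
  rcases Int.natAbs_eq r with h5 | h5
  · rw [h5, zpow_natCast] at h4
    exact h4
  · rw [h5, zpow_neg, zpow_natCast, inv_eq_one] at h4
    exact h4

/-- if the Picard group has exponent `r`, the `r`-th power of an invertible ideal is principal -/
lemma principal_of_exp {R : Type} [CommRing R] [IsDomain R] (r : ℕ)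
    (hr : ∀ P : CommRing.Pic R, P ^ r = 1) (I I' : Ideal R) (u : R) (hu : u ≠ 0)
    (hI : I * I' = Ideal.span {u}) : ∃ x : R, I ^ r = Ideal.span {x} := by
  have hu' : algebraMap R (FractionRing R) u ≠ 0 := by
    rw [Ne, FaithfulSMul.algebraMap_eq_zero_iff]
    exact hu
  have hmul : (I : FractionalIdeal R⁰ (FractionRing R)) *
      ((I' : FractionalIdeal R⁰ (FractionRing R)) *
        FractionalIdeal.spanSingleton R⁰ (algebraMap R (FractionRing R) u)⁻¹) = 1 := by
    rw [← mul_assoc, ← FractionalIdeal.coeIdeal_mul, hI, FractionalIdeal.coeIdeal_span_singleton,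
      FractionalIdeal.spanSingleton_mul_spanSingleton, mul_inv_cancel₀ hu',
      FractionalIdeal.spanSingleton_one]
  obtain ⟨U, hU⟩ : ∃ U : (FractionalIdeal R⁰ (FractionRing R))ˣ,
      (U : FractionalIdeal R⁰ (FractionRing R)) = I := ⟨Units.mkOfMulEqOne _ _ hmul, rfl⟩
  have h1 : ClassGroup.mk (FractionRing R) (U ^ r) = 1 := by
    apply (ClassGroup.equivPic R).injective
    rw [map_pow, map_pow, hr, map_one]
  have h2 : ((U ^ r : (FractionalIdeal R⁰ (FractionRing R))ˣ) : FractionalIdeal R⁰ (FractionRing R))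
      = ((I ^ r : Ideal R) : FractionalIdeal R⁰ (FractionRing R)) := by
    rw [Units.val_pow_eq_pow_val, hU, FractionalIdeal.coeIdeal_pow]
  obtain ⟨x, -, hx⟩ := (ClassGroup.mk_eq_one_of_coe_ideal h2).1 h1
  exact ⟨x, hx⟩

end Pool.Agent.K9h33.ORP
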