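import Pool.Agent.K9h33.ORP.Fin

/-!
A point near infinity on `y² = f(x)` over the `p`-adic numbers is not a torsion point.
-/

set_option autoImplicit false

namespace Pool.Agent.K9h33.ORP

open Polynomial

variable {p : ℕ} [Fact p.Prime]

/-- the inclusion -/
noncomputable abbrev ι (p : ℕ) [Fact p.Prime] : ℤ_[p] →+* ℚ_[p] := PadicInt.Coe.ringHom

lemma ι_inj : Function.Injective (ι p) := Subtype.coe_injective

lemma ι_norm (x : ℤ_[p]) : ‖ι p x‖ = ‖x‖ := rfl

lemma lift_ι {x : ℚ_[p]} (h : ‖x‖ ≤ 1) : ∃ y : ℤ_[p], ι p y = x := ⟨⟨x, h⟩, rfl⟩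

/-- scaling of pairs of polynomials -/
lemma prim (A B : ℚ_[p][X]) (h : ¬ (A = 0 ∧ B = 0)) :
    ∃ (c : ℚ_[p]) (A0 B0 : ℤ_[p][X]), c ≠ 0 ∧ A = C c * A0.map (ι p) ∧ B = C c * B0.map (ι p) ∧
      ¬ (A0.map (PadicInt.toZMod (p := p)) = 0 ∧ B0.map (PadicInt.toZMod (p := p)) = 0) := by
  classical
  set s : Finset ℚ_[p] := A.support.image A.coeff ∪ B.support.image B.coeff with hs
  have hne : s.Nonempty := by
    by_contra h0
    rw [Finset.not_nonempty_iff_eq_empty, hs, Finset.union_eq_empty, Finset.image_eq_empty,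
      Finset.image_eq_empty, Polynomial.support_eq_empty, Polynomial.support_eq_empty] at h0
    exact h h0
  obtain ⟨c, hc, hmax⟩ := s.exists_max_image (fun x => ‖x‖) hne
  have hc0 : c ≠ 0 := by
    rw [hs, Finset.mem_union, Finset.mem_image, Finset.mem_image] at hc
    rcases hc with ⟨n, hn, rfl⟩ | ⟨n, hn, rfl⟩
    · exact Polynomial.mem_support_iff.1 hn
    · exact Polynomial.mem_support_iff.1 hn
  have hcn : 0 < ‖c‖ := norm_pos_iff.2 hc0
  have hA : ∀ n, ‖A.coeff n‖ ≤ ‖c‖ := by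
    intro n
    by_cases h0 : A.coeff n = 0
    · rw [h0, norm_zero]
      exact hcn.le
    · exact hmax _ (Finset.mem_union_left _ (Finset.mem_image_of_mem _
        (Polynomial.mem_support_iff.2 h0)))
  have hB : ∀ n, ‖B.coeff n‖ ≤ ‖c‖ := by
    intro n
    by_cases h0 : B.coeff n = 0
    · rw [h0, norm_zero]
      exact hcn.le
    · exact hmax _ (Finset.mem_union_right _ (Finset.mem_image_of_mem _
        (Polynomial.mem_support_iff.2 h0)))
  have hl : ∀ P : ℚ_[p][X], (∀ n, ‖P.coeff n‖ ≤ ‖c‖) → ∃ P0 : ℤ_[p][X], P0.map (ι p) = C c⁻¹ * P := by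
    intro P hP
    have h1 : C c⁻¹ * P ∈ Polynomial.lifts (ι p) := by
      rw [Polynomial.lifts_iff_coeff_lifts]
      intro n
      rw [coeff_C_mul]
      obtain ⟨y, hy⟩ := lift_ι (x := c⁻¹ * P.coeff n) (by
        rw [norm_mul, norm_inv, inv_mul_le_iff₀ hcn, mul_one]
        exact hP n)
      exact ⟨y, hy⟩
    rw [Polynomial.mem_lifts] at h1
    exact h1
  obtain ⟨A0, hA0⟩ := hl A hA
  obtain ⟨B0, hB0⟩ := hl B hB
  have hcc : (C c * C c⁻¹ : ℚ_[p][X]) = 1 := by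
    rw [← C_mul, mul_inv_cancel₀ hc0, C_1]
  refine ⟨c, A0, B0, hc0, ?_, ?_, ?_⟩
  · rw [hA0, ← mul_assoc, hcc, one_mul]
  · rw [hB0, ← mul_assoc, hcc, one_mul]
  · rintro ⟨h1, h2⟩
    have hkey : ∀ (P : ℚ_[p][X]) (P0 : ℤ_[p][X]), P0.map (ι p) = C c⁻¹ * P →
        P0.map (PadicInt.toZMod (p := p)) = 0 → ∀ n, P.coeff n ≠ c := by
      intro P P0 h3 h4 n h5
      have h6 := congrArg (fun q : ℚ_[p][X] => q.coeff n) h3
      simp only [coeff_map, coeff_C_mul] at h6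
      rw [h5, inv_mul_cancel₀ hc0] at h6
      have h7 : P0.coeff n = 1 := ι_inj (by rw [h6, map_one])
      have h8 := congrArg (fun q : (ZMod p)[X] => q.coeff n) h4
      simp only [coeff_map, coeff_zero] at h8
      rw [h7, map_one] at h8
      exact one_ne_zero h8
    rw [hs, Finset.mem_union, Finset.mem_image, Finset.mem_image] at hc
    rcases hc with ⟨n, -, hn⟩ | ⟨n, -, hn⟩
    · exact hkey A A0 hA0 h1 n hn
    · exact hkey B B0 hB0 h2 n hn

/-- the power series of an element of the coordinate ring -/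
noncomputable def Gs (g d : ℕ) (w : PowerSeries ℤ_[p]) (A B : ℤ_[p][X]) : PowerSeries ℤ_[p] :=
  e (reflect d A) + PowerSeries.X * w * e (reflect (d - (g + 1)) B)

lemma Gs_mul {g d : ℕ} (hgd : g + 1 ≤ d) {f : ℤ_[p][X]} (hf : f.natDegree = 2 * g + 1)
    {w : PowerSeries ℤ_[p]} (hw : w ^ 2 = e (reflect (2 * g + 1) f)) {A₁ B₁ A₂ B₂ : ℤ_[p][X]}
    (a1 : A₁.natDegree ≤ d) (b1 : B₁.natDegree ≤ d - (g + 1)) (a2 : A₂.natDegree ≤ d)
    (b2 : B₂.natDegree ≤ d - (g + 1)) :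
    Gs g d w A₁ B₁ * Gs g d w A₂ B₂ = e (reflect (d + d) (A₁ * A₂ + f * B₁ * B₂)) +
      PowerSeries.X * w * e (reflect (d + (d - (g + 1))) (A₁ * B₂ + A₂ * B₁)) := by
  have h1 : reflect (d + d) (A₁ * A₂ + f * B₁ * B₂) = reflect d A₁ * reflect d A₂ +
      reflect (2 * g + 1) f * reflect (d - (g + 1)) B₁ * reflect (d - (g + 1)) B₂ * X := by
    rw [reflect_add, reflect_mul _ _ a1 a2]
    congr 1
    have h2 : (f * B₁).natDegree ≤ 2 * g + 1 + (d - (g + 1)) :=
      natDegree_mul_le.trans (Nat.add_le_add hf.le b1)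
    have h3 : (f * B₁ * B₂).natDegree ≤ 2 * g + 1 + (d - (g + 1)) + (d - (g + 1)) :=
      natDegree_mul_le.trans (Nat.add_le_add h2 b2)
    rw [show d + d = (2 * g + 1 + (d - (g + 1)) + (d - (g + 1))) + 1 by omega, reflect_raise h3,
      reflect_mul _ _ h2 b2, reflect_mul _ _ hf.le b1, pow_one]
  have h2 : reflect (d + (d - (g + 1))) (A₁ * B₂ + A₂ * B₁) =
      reflect d A₁ * reflect (d - (g + 1)) B₂ + reflect d A₂ * reflect (d - (g + 1)) B₁ := by
    rw [reflect_add, reflect_mul _ _ a1 b2, reflect_mul _ _ a2 b1]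
  rw [h1, h2]
  simp only [map_add, map_mul, e_X, ← hw]
  unfold Gs
  ring

lemma ev_Gs {g d : ℕ} (hgd : g + 1 ≤ d) {w : PowerSeries ℤ_[p]} {A B : ℤ_[p][X]}
    (ha : A.natDegree ≤ d) (hb : B.natDegree ≤ d - (g + 1)) {τ : ℤ_[p]} (hτ : ‖τ‖ < 1) {a b : ℚ_[p]}
    (h1 : (ι p τ) ^ 2 * a = 1) (h2 : (ι p τ) ^ (2 * g + 1) * b = ι p (ev τ hτ w)) :
    ι p (ev τ hτ (Gs g d w A B)) =
      (ι p τ) ^ (2 * d) * ((A.map (ι p)).eval a + b * (B.map (ι p)).eval a) := by
  have hτ0 : ι p τ ≠ 0 := by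
    intro h0
    rw [h0, zero_pow two_ne_zero, zero_mul] at h1
    exact zero_ne_one h1
  have ha0 : a ≠ 0 := by
    rintro rfl
    rw [mul_zero] at h1
    exact zero_ne_one h1
  have hinv : (ι p τ) ^ 2 = a⁻¹ := eq_inv_of_mul_eq_one_left h1
  have key : ∀ (N : ℕ) (P : ℤ_[p][X]), P.natDegree ≤ N →
      ι p ((reflect N P).eval (τ ^ 2)) = (ι p τ) ^ (2 * N) * (P.map (ι p)).eval a := by
    intro N P hP
    letI : Invertible a := invertibleOfNonzero ha0
    have h3 := eval₂_reflect_mul_pow (ι p) a N P hP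
    rw [invOf_eq_inv, ← hinv] at h3
    have h4 : ι p ((reflect N P).eval (τ ^ 2)) = eval₂ (ι p) ((ι p τ) ^ 2) (reflect N P) := by
      rw [← map_pow, Polynomial.eval₂_at_apply]
    rw [h4, eval_map, ← h3, pow_mul, hinv]
    have h5 : a⁻¹ ^ N * a ^ N = 1 := by
      rw [← mul_pow, inv_mul_cancel₀ ha0, one_pow]
    linear_combination (-(eval₂ (ι p) a⁻¹ (reflect N P))) * h5
  unfold Gs
  rw [map_add, map_mul, map_mul, ev_X, ev_e, ev_e, map_add, map_mul, map_mul, key d A ha,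
    key _ B hb, ← h2]
  have h6 : 2 * d = 1 + (2 * g + 1) + 2 * (d - (g + 1)) := by omega
  rw [h6, pow_add, pow_add, pow_one]
  ring

/-- the residue of a regular function times a holomorphic differential -/
lemma coeff_Gs {g d : ℕ} (hg : 1 ≤ g) (hgd : g + 1 ≤ d) {w w' : PowerSeries ℤ_[p]} (hw : w * w' = 1)
    (he : PowerSeries.rescale (-1 : ℤ_[p]) w' = w') {A B : ℤ_[p][X]}
    (hb : B.natDegree ≤ d - (g + 1)) :
    PowerSeries.coeff (2 * d - 1) (Gs g d w A B * w') = 0 := by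
  have h1 : Gs g d w A B * w' = e (reflect d A) * w' +
      PowerSeries.X * e (reflect (d - (g + 1)) B) := by
    unfold Gs
    linear_combination (PowerSeries.X * e (reflect (d - (g + 1)) B)) * hw
  rw [h1, map_add]
  have h2 : PowerSeries.coeff (2 * d - 1) (e (reflect d A) * w') = 0 := by
    apply odd_coeff
    · rw [map_mul, rescale_e, he]
    · exact ⟨d - 1, by omega⟩
  rw [h2, zero_add, show 2 * d - 1 = (2 * d - 2) + 1 by omega, PowerSeries.coeff_succ_X_mul, e_apply,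
    Polynomial.coeff_coe]
  apply coeff_eq_zero_of_natDegree_lt
  rw [natDegree_expand]
  have h3 : (reflect (d - (g + 1)) B).natDegree ≤ d - (g + 1) := by
    rw [natDegree_le_iff_coeff_eq_zero]
    intro m hm
    rw [coeff_reflect, revAt_eq_self_of_lt hm]
    exact coeff_eq_zero_of_natDegree_lt (lt_of_le_of_lt hb hm)
  omega

end Pool.Agent.K9h33.ORP
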