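import Pool.Agent.K9h33.ORP.Core

/-!
A point near infinity on `y² = f(x)` over the `p`-adic numbers is not a torsion point: the proof.
-/

set_option autoImplicit false

namespace Pool.Agent.K9h33.ORP

open Polynomial

variable {p : ℕ} [Fact p.Prime]

lemma ev_neg {τ : ℤ_[p]} (hτ : ‖τ‖ < 1) (hτ' : ‖-τ‖ < 1) (G : PowerSeries ℤ_[p]) :
    ev (-τ) hτ' G = ev τ hτ (PowerSeries.rescale (-1 : ℤ_[p]) G) := by
  rw [ev_apply, ev_apply]
  refine tsum_congr fun n => ?_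
  rw [PowerSeries.coeff_rescale, neg_pow]
  ring

lemma const_e (q : ℤ_[p][X]) : PowerSeries.constantCoeff (e q) = q.coeff 0 := by
  rw [e_apply, ← PowerSeries.coeff_zero_eq_constantCoeff_apply, Polynomial.coeff_coe,
    coeff_expand two_pos, if_pos (dvd_zero 2), Nat.zero_div]

/-- the parameter of a point near infinity -/
lemma exists_tau (hp : p ≠ 2) {g : ℕ} {f : ℤ_[p][X]} (hm : f.Monic) (hd : f.natDegree = 2 * g + 1)
    {a b : ℚ_[p]} (hb : b ^ 2 = (f.map (ι p)).eval a) (ha : 1 < ‖a‖) :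
    ∃ (w : PowerSeries ℤ_[p]) (τ : ℤ_[p]) (hτ : ‖τ‖ < 1), w ^ 2 = e (reflect (2 * g + 1) f) ∧
      PowerSeries.constantCoeff w = 1 ∧ τ ≠ 0 ∧ (ι p τ) ^ 2 * a = 1 ∧
        (ι p τ) ^ (2 * g + 1) * b = ι p (ev τ hτ w) := by
  have hr0 : (reflect (2 * g + 1) f).coeff 0 = 1 := by
    rw [coeff_reflect, revAt_le (Nat.zero_le _), Nat.sub_zero, ← hd]
    exact hm
  obtain ⟨w, hw, hw1⟩ := exists_sqrt hp (e (reflect (2 * g + 1) f)) (by rw [const_e, hr0])
  obtain ⟨W, hW, hW1⟩ := exists_sqrt hp ((reflect (2 * g + 1) f : ℤ_[p][X]) : PowerSeries ℤ_[p]) (by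
    rw [← PowerSeries.coeff_zero_eq_constantCoeff_apply, Polynomial.coeff_coe, hr0])
  have ha0 : a ≠ 0 := by
    rintro rfl
    rw [norm_zero] at ha
    exact absurd ha (by norm_num)
  have hai : ‖a⁻¹‖ < 1 := by
    rw [norm_inv]
    exact inv_lt_one_of_one_lt₀ ha
  obtain ⟨σ, hσ⟩ := lift_ι hai.le
  have hσn : ‖σ‖ < 1 := by
    rw [← ι_norm, hσ]
    exact hai
  obtain ⟨u, hu⟩ : ∃ u, u = ev σ hσn W := ⟨_, rfl⟩
  have hu2 : u ^ 2 = (reflect (2 * g + 1) f).eval σ := by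
    rw [hu, ← map_pow, hW, ev_coe]
  have hu0 : u ≠ 0 := by
    intro h0
    have h1 : PowerSeries.constantCoeff (W - 1) = 0 := by rw [map_sub, hW1, map_one, sub_self]
    obtain ⟨W₁, hW₁⟩ := PowerSeries.X_dvd_iff.2 h1
    have h2 : ev σ hσn W = 1 + σ * ev σ hσn W₁ := by
      rw [show W = 1 + PowerSeries.X * W₁ by rw [← hW₁]; ring, map_add, map_one, map_mul, ev_X]
    rw [← hu, h0] at h2
    have h3 : σ * ev σ hσn W₁ = -1 := by linear_combination -h2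
    have h4 := congrArg norm h3
    rw [norm_mul, norm_neg, norm_one] at h4
    have h5 : ‖σ‖ * ‖ev σ hσn W₁‖ < 1 :=
      lt_of_le_of_lt (mul_le_of_le_one_right (norm_nonneg _) (PadicInt.norm_le_one _)) hσn
    exact absurd h4 h5.ne
  have hui : ι p u ≠ 0 := fun h0 => hu0 (ι_inj (by rw [h0, map_zero]))
  -- the value of the reflected polynomial
  have hval : (ι p u) ^ 2 * a ^ (2 * g + 1) = b ^ 2 := by
    let _ : Invertible a := invertibleOfNonzero ha0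
    have h3 := eval₂_reflect_mul_pow (ι p) a (2 * g + 1) f hd.le
    rw [invOf_eq_inv, ← hσ, Polynomial.eval₂_at_apply, ← hu2, map_pow] at h3
    rw [h3, hb, eval_map]
  obtain ⟨t, ht⟩ : ∃ t : ℚ_[p], t = a⁻¹ ^ (g + 1) * b / ι p u := ⟨_, rfl⟩
  have ht2 : t ^ 2 = a⁻¹ := by
    rw [ht, div_pow, mul_pow, ← hval, ← pow_mul]
    have e1 : (a⁻¹) ^ ((g + 1) * 2) * a ^ (2 * g + 1) = a⁻¹ := by
      rw [show (g + 1) * 2 = (2 * g + 1) + 1 by ring, pow_succ]
      have e2 : a⁻¹ ^ (2 * g + 1) * a ^ (2 * g + 1) = 1 := by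
        rw [← mul_pow, inv_mul_cancel₀ ha0, one_pow]
      linear_combination a⁻¹ * e2
    rw [div_eq_iff (pow_ne_zero 2 hui)]
    linear_combination (ι p u) ^ 2 * e1
  have htn : ‖t‖ < 1 := by
    have h1 : ‖t‖ ^ 2 < 1 := by
      rw [← norm_pow, ht2]
      exact hai
    nlinarith [norm_nonneg t]
  obtain ⟨τ, hτ⟩ := lift_ι htn.le
  have hτn : ‖τ‖ < 1 := by
    rw [← ι_norm, hτ]
    exact htn
  have hτ2 : τ ^ 2 = σ := ι_inj (by rw [map_pow, hτ, ht2, hσ])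
  have hta : t ^ 2 * a = 1 := by rw [ht2, inv_mul_cancel₀ ha0]
  have ht0 : t ≠ 0 := by
    rintro rfl
    rw [zero_pow two_ne_zero, zero_mul] at hta
    exact zero_ne_one hta
  have hτ0 : τ ≠ 0 := by
    rintro rfl
    rw [map_zero] at hτ
    exact ht0 hτ.symm
  have hsq : (t ^ (2 * g + 1) * b) ^ 2 = (ι p (ev τ hτn w)) ^ 2 := by
    have h1 : (ι p (ev τ hτn w)) ^ 2 = (ι p u) ^ 2 := by
      rw [← map_pow, ← map_pow, hw, ev_e, hτ2, ← hu2, map_pow]
    rw [h1, mul_pow, ← hval]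
    have h2 : (t ^ (2 * g + 1)) ^ 2 * a ^ (2 * g + 1) = 1 := by
      rw [← pow_mul, mul_comm (2 * g + 1) 2, pow_mul, ← mul_pow, hta, one_pow]
    linear_combination (ι p u) ^ 2 * h2
  rcases sq_eq_sq_iff_eq_or_eq_neg.1 hsq with h | h
  · exact ⟨w, τ, hτn, hw, hw1, hτ0, by rw [hτ, hta], by rw [hτ, h]⟩
  · have hτn' : ‖-τ‖ < 1 := by rw [norm_neg]; exact hτn
    refine ⟨w, -τ, hτn', hw, hw1, neg_ne_zero.2 hτ0, ?_, ?_⟩
    · rw [map_neg, neg_sq, hτ, hta]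
    · rw [map_neg, hτ, ev_neg hτn hτn', even_of hw hw1, Odd.neg_pow ⟨g, rfl⟩, neg_mul, h, neg_neg]

lemma toZMod_zero {x : ℤ_[p]} (hx : ‖x‖ < 1) : PadicInt.toZMod x = 0 := by
  obtain ⟨y, rfl⟩ := (PadicInt.norm_lt_one_iff_dvd x).1 hx
  rw [map_mul, map_natCast, ZMod.natCast_self, zero_mul]

lemma unit_of_toZMod {x : ℤ_[p]} (hx : PadicInt.toZMod x ≠ 0) : IsUnit x := by
  rw [PadicInt.isUnit_iff]
  by_contra h
  exact hx (toZMod_zero (lt_of_le_of_ne (PadicInt.norm_le_one _) h))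

lemma order_eq {k : Type} [Field k] {i j : ℕ} {U : PowerSeries k} {α : k} (hU : IsUnit U)
    (hα : α ≠ 0) (h : PowerSeries.X ^ i * U = PowerSeries.C α * PowerSeries.X ^ j) : i = j := by
  have hU0 : PowerSeries.constantCoeff U ≠ 0 := by
    rw [PowerSeries.isUnit_iff_constantCoeff] at hU
    exact hU.ne_zero
  rcases Nat.lt_trichotomy i j with h1 | h1 | h1
  · exfalso
    have h2 := congrArg (PowerSeries.coeff i) h
    rw [PowerSeries.coeff_X_pow_mul', if_pos le_rfl, Nat.sub_self,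
      PowerSeries.coeff_zero_eq_constantCoeff, PowerSeries.coeff_C_mul, PowerSeries.coeff_X_pow,
      if_neg h1.ne, mul_zero] at h2
    exact hU0 h2
  · exact h1
  · exfalso
    have h2 := congrArg (PowerSeries.coeff j) h
    rw [PowerSeries.coeff_X_pow_mul', if_neg (not_le.2 h1), PowerSeries.coeff_C_mul,
      PowerSeries.coeff_X_pow, if_pos rfl, mul_one] at h2
    exact hα h2.symm

lemma map_e (q : ℤ_[p][X]) : PowerSeries.map (PadicInt.toZMod (p := p)) (e q) =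
    ((Polynomial.expand (ZMod p) 2 (q.map PadicInt.toZMod) : (ZMod p)[X]) : PowerSeries (ZMod p)) := by
  rw [e_apply, ← Polynomial.map_expand]
  ext n
  rw [PowerSeries.coeff_map, Polynomial.coeff_coe, Polynomial.coeff_coe, coeff_map]

/-- **a point near infinity is not a torsion point** -/
theorem core (hp : p ≠ 2) {g : ℕ} (hg : 1 ≤ g) {f : ℤ_[p][X]} (hm : f.Monic)
    (hd : f.natDegree = 2 * g + 1) {a b : ℚ_[p]} (hb : b ^ 2 = (f.map (ι p)).eval a)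
    (ha : 1 < ‖a‖) (m : ℕ) (A₁ B₁ A₂ B₂ : ℚ_[p][X])
    (h1 : A₁ * A₂ + f.map (ι p) * B₁ * B₂ = (X - C a) ^ (m + 1)) (h2 : A₁ * B₂ + A₂ * B₁ = 0)
    (h3 : A₁.eval a + (-b) * B₁.eval a ≠ 0) (h4 : A₂.eval a + b * B₂.eval a ≠ 0) : False := by
  obtain ⟨w, τ, hτ, hw, hw1, hτ0, t1, t2⟩ := exists_tau hp hm hd hb ha
  have he := even_of hw hw1
  obtain ⟨w', hww, he', hw1'⟩ := exists_inv hw1 he
  have ha0 : a ≠ 0 := by
    rintro rfl
    rw [norm_zero] at ha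
    exact absurd ha (by norm_num)
  have n1 : ¬ (A₁ = 0 ∧ B₁ = 0) := by
    rintro ⟨rfl, rfl⟩
    apply h3
    simp
  have n2 : ¬ (A₂ = 0 ∧ B₂ = 0) := by
    rintro ⟨rfl, rfl⟩
    apply h4
    simp
  obtain ⟨c₁, P₁, Q₁, hc₁, hA₁, hB₁, hpr₁⟩ := prim A₁ B₁ n1
  obtain ⟨c₂, P₂, Q₂, hc₂, hA₂, hB₂, hpr₂⟩ := prim A₂ B₂ n2
  have hcc : (C (c₁ * c₂) : ℚ_[p][X]) ≠ 0 := by
    rw [Ne, C_eq_zero]
    exact mul_ne_zero hc₁ hc₂
  -- the relations over the integers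
  have r2 : P₁ * Q₂ + P₂ * Q₁ = 0 := by
    apply Polynomial.map_injective (ι p) ι_inj
    apply mul_left_cancel₀ hcc
    rw [Polynomial.map_zero, mul_zero, Polynomial.map_add, Polynomial.map_mul, Polynomial.map_mul,
      C_mul]
    rw [hA₁, hB₁, hA₂, hB₂] at h2
    linear_combination h2
  obtain ⟨κ, hκ⟩ : ∃ κ : ℚ_[p], κ = (-a) ^ (m + 1) / (c₁ * c₂) := ⟨_, rfl⟩
  have hτi : (ι p (τ ^ 2)) = a⁻¹ := by
    rw [map_pow]
    exact eq_inv_of_mul_eq_one_left t1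
  have r1K : (P₁ * P₂ + f * Q₁ * Q₂).map (ι p) =
      C κ * ((1 - C (τ ^ 2) * X) ^ (m + 1) : ℤ_[p][X]).map (ι p) := by
    apply mul_left_cancel₀ hcc
    have e1 : (C (c₁ * c₂) : ℚ_[p][X]) * (C κ * ((1 - C (τ ^ 2) * X) ^ (m + 1) : ℤ_[p][X]).map (ι p)) =
        (X - C a) ^ (m + 1) := by
      rw [Polynomial.map_pow, Polynomial.map_sub, Polynomial.map_one, Polynomial.map_mul, map_C,
        map_X, hτi, ← mul_assoc, ← C_mul, hκ, mul_div_cancel₀ _ (mul_ne_zero hc₁ hc₂), C_pow,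
        ← mul_pow]
      congr 1
      have e2 : (C a * C a⁻¹ : ℚ_[p][X]) = 1 := by rw [← C_mul, mul_inv_cancel₀ ha0, C_1]
      rw [C_neg]
      linear_combination X * e2
    rw [e1, ← h1, Polynomial.map_add, Polynomial.map_mul, Polynomial.map_mul, Polynomial.map_mul,
      hA₁, hB₁, hA₂, hB₂, C_mul]
    ring
  obtain ⟨γ, hγ⟩ : ∃ γ : ℤ_[p], γ = (P₁ * P₂ + f * Q₁ * Q₂).coeff 0 := ⟨_, rfl⟩
  have hγκ : ι p γ = κ := by
    have e1 := congrArg (fun q : ℚ_[p][X] => q.coeff 0) r1K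
    simp only [coeff_map, coeff_C_mul] at e1
    have e2 : ((1 - C (τ ^ 2) * X) ^ (m + 1) : ℤ_[p][X]).coeff 0 = 1 := by
      rw [coeff_zero_eq_eval_zero]
      simp
    rw [e2, map_one, mul_one] at e1
    rw [hγ, ← e1]
  have r1 : P₁ * P₂ + f * Q₁ * Q₂ = C γ * (1 - C (τ ^ 2) * X) ^ (m + 1) := by
    apply Polynomial.map_injective (ι p) ι_inj
    rw [r1K, Polynomial.map_mul, map_C, hγκ]
  -- reduction
  have hτz : PadicInt.toZMod τ = 0 := toZMod_zero hτ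
  have s1 : P₁.map PadicInt.toZMod * P₂.map PadicInt.toZMod +
      f.map PadicInt.toZMod * Q₁.map PadicInt.toZMod * Q₂.map PadicInt.toZMod =
        C (PadicInt.toZMod (p := p) γ) := by
    have e1 := congrArg (Polynomial.map (PadicInt.toZMod (p := p))) r1
    simp only [Polynomial.map_add, Polynomial.map_mul, Polynomial.map_pow, Polynomial.map_sub,
      Polynomial.map_one, map_C, map_X, map_pow, hτz] at e1
    rw [e1]
    simp
  have s2 : P₁.map PadicInt.toZMod * Q₂.map PadicInt.toZMod +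
      P₂.map PadicInt.toZMod * Q₁.map (PadicInt.toZMod (p := p)) = 0 := by
    have e1 := congrArg (Polynomial.map (PadicInt.toZMod (p := p))) r2
    simpa only [Polynomial.map_add, Polynomial.map_mul, Polynomial.map_zero] using e1
  have hfm : (f.map (PadicInt.toZMod (p := p))).Monic := hm.map _
  have hfd : (f.map (PadicInt.toZMod (p := p))).natDegree = 2 * g + 1 := by
    rw [hm.natDegree_map, hd]
  obtain ⟨p1, p2⟩ := parity hfm hfd ⟨g, rfl⟩ hpr₁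
  obtain ⟨p3, -⟩ := parity hfm hfd ⟨g, rfl⟩ hpr₂
  have s3 : ((P₁.map PadicInt.toZMod) ^ 2 - f.map PadicInt.toZMod * (Q₁.map PadicInt.toZMod) ^ 2) *
      ((P₂.map PadicInt.toZMod) ^ 2 - f.map PadicInt.toZMod * (Q₂.map PadicInt.toZMod) ^ 2) =
        C ((PadicInt.toZMod (p := p) γ) ^ 2) := by
    rw [C_pow, ← s1]
    linear_combination (-(f.map (PadicInt.toZMod (p := p))) *
      (P₁.map PadicInt.toZMod * Q₂.map PadicInt.toZMod +
        P₂.map PadicInt.toZMod * Q₁.map (PadicInt.toZMod (p := p)))) * s2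
  have hγ0 : PadicInt.toZMod (p := p) γ ≠ 0 := by
    intro h0
    rw [h0, zero_pow two_ne_zero, C_0] at s3
    exact mul_ne_zero p1 p3 s3
  have hγu : IsUnit γ := unit_of_toZMod hγ0
  have hdeg : ((P₁.map (PadicInt.toZMod (p := p))) ^ 2 -
      f.map PadicInt.toZMod * (Q₁.map PadicInt.toZMod) ^ 2).natDegree = 0 := by
    have e1 := congrArg Polynomial.natDegree s3
    rw [natDegree_mul p1 p3, natDegree_C] at e1
    omega
  obtain ⟨q1, q2⟩ := p2 hdeg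
  have hP0 : P₁.map (PadicInt.toZMod (p := p)) ≠ 0 := fun h0 => hpr₁ ⟨h0, q1⟩
  -- the degree
  obtain ⟨d, hd1⟩ : ∃ d : ℕ, d = m + 1 + (g + 1) + P₁.natDegree + Q₁.natDegree + P₂.natDegree +
    Q₂.natDegree := ⟨_, rfl⟩
  have hgd : g + 1 ≤ d := by omega
  obtain ⟨G₁, hG₁⟩ : ∃ G, G = Gs g d w P₁ Q₁ := ⟨_, rfl⟩
  obtain ⟨G₂, hG₂⟩ : ∃ G, G = Gs g d w P₂ Q₂ := ⟨_, rfl⟩
  obtain ⟨k, hk⟩ : ∃ k : ℕ, d + d = (m + 1) + k := ⟨d + d - (m + 1), by omega⟩
  have hprod : G₁ * G₂ = PowerSeries.C γ * ((PowerSeries.X ^ 2 - PowerSeries.C (τ ^ 2)) ^ (m + 1) *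
      (PowerSeries.X ^ 2) ^ k) := by
    rw [hG₁, hG₂, Gs_mul hgd hd hw (by omega) (by omega) (by omega) (by omega), r1, r2, reflect_zero,
      map_zero, mul_zero, add_zero, reflect_C_mul, hk, reflect_raise (reflect_one_sub _ _).1,
      (reflect_one_sub _ _).2]
    simp only [map_mul, map_pow, map_sub, e_C, e_X]
  have hτ' : ‖-τ‖ < 1 := by rw [norm_neg]; exact hτ
  have t1' : (ι p (-τ)) ^ 2 * a = 1 := by rw [map_neg, neg_sq, t1]
  have t2' : (ι p (-τ)) ^ (2 * g + 1) * (-b) = ι p (ev (-τ) hτ' w) := by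
    rw [map_neg, Odd.neg_pow ⟨g, rfl⟩, neg_mul_neg, t2, ev_neg hτ hτ', he]
  have hιτ : ∀ n : ℕ, (ι p τ) ^ n ≠ 0 := fun n => pow_ne_zero n
    fun h0 => hτ0 (ι_inj (by rw [h0, map_zero]))
  have hG2 : ev τ hτ G₂ ≠ 0 := by
    intro h0
    have e1 := ev_Gs hgd (A := P₂) (B := Q₂) (by omega) (by omega) hτ t1 t2
    rw [← hG₂, h0, map_zero] at e1
    have e2 := (mul_eq_zero.1 e1.symm).resolve_left (hιτ _)
    apply h4
    rw [hA₂, hB₂, eval_mul, eval_mul, eval_C]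
    linear_combination c₂ * e2
  have hG1 : ev (-τ) hτ' G₁ ≠ 0 := by
    intro h0
    have e1 := ev_Gs hgd (A := P₁) (B := Q₁) (by omega) (by omega) hτ' t1' t2'
    rw [← hG₁, h0, map_zero] at e1
    have e2 := (mul_eq_zero.1 e1.symm).resolve_left (by
      rw [map_neg, neg_pow]
      exact mul_ne_zero (pow_ne_zero _ (by norm_num)) (hιτ _))
    apply h3
    rw [hA₁, hB₁, eval_mul, eval_mul, eval_C]
    linear_combination c₁ * e2
  have hfac : (PowerSeries.X ^ 2 - PowerSeries.C (τ ^ 2) : PowerSeries ℤ_[p]) =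
      (PowerSeries.X - PowerSeries.C τ) * (PowerSeries.X - PowerSeries.C (-τ)) := by
    rw [map_pow, map_neg]
    ring
  rw [hfac, mul_pow] at hprod
  obtain ⟨U₁, hU₁⟩ := pow_dvd' hτ (m + 1) G₁ G₂ (PowerSeries.C γ *
    ((PowerSeries.X - PowerSeries.C (-τ)) ^ (m + 1) * (PowerSeries.X ^ 2) ^ k))
    (by rw [hprod]; ring) hG2
  have hp2 : U₁ * G₂ = PowerSeries.C γ * ((PowerSeries.X - PowerSeries.C (-τ)) ^ (m + 1) *
      (PowerSeries.X ^ 2) ^ k) := by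
    apply mul_left_cancel₀ (pow_ne_zero (m + 1) (X_sub_C_ne' τ))
    rw [← mul_assoc, ← hU₁, hprod]
    ring
  have hU1 : ev (-τ) hτ' U₁ ≠ 0 := by
    intro h0
    apply hG1
    rw [hU₁, map_mul, h0, mul_zero]
  obtain ⟨V₁, hV₁⟩ := pow_dvd' hτ' (m + 1) G₂ U₁ (PowerSeries.C γ * (PowerSeries.X ^ 2) ^ k)
    (by rw [mul_comm G₂, hp2]; ring) hU1
  have hUV : U₁ * V₁ = PowerSeries.C γ * PowerSeries.X ^ (2 * k) := by
    apply mul_left_cancel₀ (pow_ne_zero (m + 1) (X_sub_C_ne' (-τ)))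
    rw [mul_left_comm, ← hV₁, hp2, pow_mul]
    ring
  obtain ⟨i, U, hU, hUi⟩ := unit_part hγu _ _ _ hUV
  -- the order
  obtain ⟨α, hα⟩ : ∃ α, α = (P₁.map (PadicInt.toZMod (p := p))).coeff 0 := ⟨_, rfl⟩
  have hP1 : P₁.map (PadicInt.toZMod (p := p)) = C α := by
    rw [hα]
    exact eq_C_of_natDegree_eq_zero q2
  have hα0 : α ≠ 0 := by
    intro h0
    rw [hP1, h0, C_0] at hP0
    exact hP0 rfl
  have hord : m + 1 + i = 2 * d := by
    have e1 : PowerSeries.map (PadicInt.toZMod (p := p)) G₁ =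
        PowerSeries.C α * PowerSeries.X ^ (2 * d) := by
      rw [hG₁]
      unfold Gs
      rw [map_add, map_mul, map_e, map_e, ← reflect_map, ← reflect_map, q1, reflect_zero, map_zero,
        Polynomial.coe_zero, mul_zero, add_zero, hP1]
      have e2 : reflect d (C α : (ZMod p)[X]) = C α * X ^ d := by
        have e3 : (C α : (ZMod p)[X]) = C α * X ^ 0 := by rw [pow_zero, mul_one]
        rw [e3, reflect_C_mul_X_pow, revAt_le (Nat.zero_le _), Nat.sub_zero, pow_zero, mul_one]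
      rw [e2, map_mul, map_pow, expand_C, expand_X, Polynomial.coe_mul, Polynomial.coe_pow,
        Polynomial.coe_pow, Polynomial.coe_X, Polynomial.coe_C, ← pow_mul]
    rw [hU₁, hUi, map_mul, map_pow, map_sub, PowerSeries.map_X, PowerSeries.map_C, hτz, map_zero,
      sub_zero, map_mul, map_pow, PowerSeries.map_X, ← mul_assoc, ← pow_add] at e1
    exact order_eq (hU.map _) hα0 e1
  -- the residue
  have hres := coeff_Gs (w := w) hg hgd hww he' (A := P₁) (B := Q₁) (by omega)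
  rw [← hG₁, hU₁, hUi, show 2 * d - 1 = m + i by omega] at hres
  have e1 : (PowerSeries.X - PowerSeries.C τ) ^ (m + 1) * (PowerSeries.X ^ i * U) * w' =
      PowerSeries.X ^ i * ((PowerSeries.X - PowerSeries.C τ) ^ (m + 1) * (U * w')) := by ring
  rw [e1, PowerSeries.coeff_X_pow_mul] at hres
  refine final_ne hp hτ hτ0 m (V := U * w') ?_ hres
  rw [map_mul, hw1', mul_one, ← PadicInt.isUnit_iff]
  rwa [PowerSeries.isUnit_iff_constantCoeff] at hU

end Pool.Agent.K9h33.ORP
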