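import Mathlib

/-!
Power series over the `p`-adic integers: values at points of norm less than one, division by `X - τ`, square
roots, even power series.
-/

set_option autoImplicit false

namespace Pool.Agent.K9h33.ORP

open Polynomial

variable {p : ℕ} [Fact p.Prime]

lemma ev_summable {τ : ℤ_[p]} (hτ : ‖τ‖ < 1) (c : ℕ → ℤ_[p]) :
    Summable fun n => ‖c n * τ ^ n‖ := by
  refine Summable.of_nonneg_of_le (fun _ => norm_nonneg _) (fun n => ?_)
    (summable_geometric_of_lt_one (norm_nonneg τ) hτ)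
  rw [norm_mul, norm_pow]
  exact mul_le_of_le_one_left (by positivity) (PadicInt.norm_le_one _)

/-- the value of a power series -/
noncomputable def ev (τ : ℤ_[p]) (hτ : ‖τ‖ < 1) : PowerSeries ℤ_[p] →+* ℤ_[p] where
  toFun G := ∑' n, PowerSeries.coeff n G * τ ^ n
  map_one' := by
    rw [tsum_eq_single 0]
    · simp
    · intro n hn
      rw [PowerSeries.coeff_one, if_neg hn, zero_mul]
  map_mul' G H := by
    rw [tsum_mul_tsum_eq_tsum_sum_antidiagonal_of_summable_norm
      (ev_summable hτ fun n => PowerSeries.coeff n G) (ev_summable hτ fun n => PowerSeries.coeff n H)]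
    refine tsum_congr fun n => ?_
    rw [PowerSeries.coeff_mul, Finset.sum_mul]
    refine Finset.sum_congr rfl fun kl hkl => ?_
    rw [← Finset.HasAntidiagonal.mem_antidiagonal.1 hkl, pow_add]
    ring
  map_zero' := by simp
  map_add' G H := by
    rw [← (ev_summable hτ fun n => PowerSeries.coeff n G).of_norm.tsum_add
      (ev_summable hτ fun n => PowerSeries.coeff n H).of_norm]
    refine tsum_congr fun n => ?_
    rw [map_add, add_mul]

lemma ev_apply {τ : ℤ_[p]} (hτ : ‖τ‖ < 1) (G : PowerSeries ℤ_[p]) :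
    ev τ hτ G = ∑' n, PowerSeries.coeff n G * τ ^ n := rfl

lemma ev_C {τ : ℤ_[p]} (hτ : ‖τ‖ < 1) (c : ℤ_[p]) : ev τ hτ (PowerSeries.C c) = c := by
  rw [ev_apply, tsum_eq_single 0]
  · simp
  · intro n hn
    rw [PowerSeries.coeff_C, if_neg hn, zero_mul]

lemma ev_X {τ : ℤ_[p]} (hτ : ‖τ‖ < 1) : ev τ hτ PowerSeries.X = τ := by
  rw [ev_apply, tsum_eq_single 1]
  · simp
  · intro n hn
    rw [PowerSeries.coeff_X, if_neg hn, zero_mul]

lemma ev_coe {τ : ℤ_[p]} (hτ : ‖τ‖ < 1) (q : ℤ_[p][X]) :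
    ev τ hτ (q : PowerSeries ℤ_[p]) = q.eval τ := by
  have h : (ev τ hτ).comp Polynomial.coeToPowerSeries.ringHom = evalRingHom τ := by
    apply Polynomial.ringHom_ext
    · intro c
      simp [ev_C]
    · simp [ev_X]
  exact congrArg (fun φ : ℤ_[p][X] →+* ℤ_[p] => φ q) h

lemma dvd_of_ev {τ : ℤ_[p]} (hτ : ‖τ‖ < 1) {G : PowerSeries ℤ_[p]} (h : ev τ hτ G = 0) :
    (PowerSeries.X - PowerSeries.C τ) ∣ G := by
  have hs : ∀ i : ℕ, Summable fun j : ℕ => PowerSeries.coeff (i + j) G * τ ^ j := fun i =>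
    (ev_summable hτ fun j => PowerSeries.coeff (i + j) G).of_norm
  have hr : ∀ i : ℕ, ∑' j, PowerSeries.coeff (i + j) G * τ ^ j =
      PowerSeries.coeff i G + τ * ∑' j, PowerSeries.coeff (i + 1 + j) G * τ ^ j := by
    intro i
    rw [(hs i).tsum_eq_zero_add, ← (hs (i + 1)).tsum_mul_left]
    congr 1
    · simp
    · refine tsum_congr fun j => ?_
      rw [show i + (j + 1) = i + 1 + j by ring, pow_succ]
      ring
  refine ⟨PowerSeries.mk fun i => ∑' j, PowerSeries.coeff (i + 1 + j) G * τ ^ j, ?_⟩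
  ext n
  cases n with
  | zero =>
    rw [sub_mul, map_sub, PowerSeries.coeff_zero_X_mul, PowerSeries.coeff_C_mul,
      PowerSeries.coeff_mk]
    have h0 := hr 0
    have h1 : ∑' j, PowerSeries.coeff (0 + j) G * τ ^ j = 0 := by
      rw [← h, ev_apply]
      refine tsum_congr fun j => ?_
      rw [zero_add]
    rw [h1] at h0
    linear_combination -h0
  | succ n =>
    rw [sub_mul, map_sub, PowerSeries.coeff_succ_X_mul, PowerSeries.coeff_C_mul,
      PowerSeries.coeff_mk, PowerSeries.coeff_mk, hr (n + 1)]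
    ring

lemma X_sub_C_ne' (τ : ℤ_[p]) : (PowerSeries.X - PowerSeries.C τ : PowerSeries ℤ_[p]) ≠ 0 := by
  intro h
  have := congrArg (PowerSeries.coeff 1) h
  simp at this

lemma pow_dvd' {τ : ℤ_[p]} (hτ : ‖τ‖ < 1) (N : ℕ) : ∀ (G G' Z : PowerSeries ℤ_[p]),
    (PowerSeries.X - PowerSeries.C τ) ^ N * Z = G * G' → ev τ hτ G' ≠ 0 →
      (PowerSeries.X - PowerSeries.C τ) ^ N ∣ G := by
  induction N with
  | zero =>
    intro G _ _ _ _
    simp
  | succ N ih =>
    intro G G' Z h h'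
    have h1 : ev τ hτ G * ev τ hτ G' = 0 := by
      rw [← map_mul, ← h, map_mul, map_pow, map_sub, ev_X, ev_C, sub_self,
        zero_pow (Nat.succ_ne_zero _), zero_mul]
    obtain ⟨H, hH⟩ := dvd_of_ev hτ ((mul_eq_zero.1 h1).resolve_right h')
    have h2 : (PowerSeries.X - PowerSeries.C τ) ^ N * Z = H * G' := by
      apply mul_left_cancel₀ (X_sub_C_ne' τ)
      rw [← mul_assoc, ← mul_assoc, ← hH, ← h, pow_succ']
    obtain ⟨K, hK⟩ := ih H G' Z h2 h'
    exact ⟨K, by rw [hH, hK, pow_succ', mul_assoc]⟩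

lemma two_unit (hp : p ≠ 2) : IsUnit (2 : ℤ_[p]) := by
  rw [PadicInt.isUnit_iff]
  by_contra h
  have h1 : ‖((2 : ℤ) : ℤ_[p])‖ < 1 := by
    push_cast
    exact lt_of_le_of_ne (PadicInt.norm_le_one _) h
  rw [PadicInt.norm_int_lt_one_iff_dvd] at h1
  have h2 : p ∣ 2 := by exact_mod_cast h1
  exact hp ((Nat.prime_dvd_prime_iff_eq Fact.out Nat.prime_two).1 h2)

lemma exists_sqrt (hp : p ≠ 2) (H : PowerSeries ℤ_[p]) (h : PowerSeries.constantCoeff H = 1) :
    ∃ w : PowerSeries ℤ_[p], w ^ 2 = H ∧ PowerSeries.constantCoeff w = 1 := by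
  obtain ⟨r, hr⟩ := (two_unit hp).exists_right_inv
  have hr2 : r + r = 1 := by linear_combination hr
  have h1 : PowerSeries.binomialSeries ℤ_[p] r * PowerSeries.binomialSeries ℤ_[p] r =
      1 + PowerSeries.X := by
    rw [← PowerSeries.binomialSeries_add, hr2]
    have := PowerSeries.binomialSeries_nat (R := ℤ_[p]) (A := ℤ_[p]) 1
    rw [Nat.cast_one, pow_one] at this
    exact this
  have ha : PowerSeries.HasSubst (H - 1) :=
    PowerSeries.HasSubst.of_constantCoeff_zero' (by rw [map_sub, h, map_one, sub_self])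
  obtain ⟨w, hw⟩ : ∃ w, w = PowerSeries.substAlgHom (R := ℤ_[p]) ha
    (PowerSeries.binomialSeries ℤ_[p] r) := ⟨_, rfl⟩
  have h2 : w ^ 2 = H := by
    rw [sq, hw, ← map_mul, h1, map_add, map_one, PowerSeries.substAlgHom_X]
    ring
  have h3 : (PowerSeries.constantCoeff w) ^ 2 = 1 ^ 2 := by
    rw [← map_pow, h2, h, one_pow]
  rcases sq_eq_sq_iff_eq_or_eq_neg.1 h3 with h4 | h4
  · exact ⟨w, h2, h4⟩
  · exact ⟨-w, by rw [neg_sq, h2], by rw [map_neg, h4, neg_neg]⟩

/-- `q(t²)` -/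
noncomputable def e : ℤ_[p][X] →+* PowerSeries ℤ_[p] :=
  Polynomial.coeToPowerSeries.ringHom.comp (Polynomial.expand ℤ_[p] 2).toRingHom

lemma e_apply (q : ℤ_[p][X]) :
    e q = ((Polynomial.expand ℤ_[p] 2 q : ℤ_[p][X]) : PowerSeries ℤ_[p]) := rfl

lemma e_C (c : ℤ_[p]) : e (C c : ℤ_[p][X]) = PowerSeries.C c := by
  rw [e_apply, expand_C, Polynomial.coe_C]

lemma e_X : e (X : ℤ_[p][X]) = PowerSeries.X ^ 2 := by
  rw [e_apply, expand_X, Polynomial.coe_pow, Polynomial.coe_X]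

lemma ev_e {τ : ℤ_[p]} (hτ : ‖τ‖ < 1) (q : ℤ_[p][X]) : ev τ hτ (e q) = q.eval (τ ^ 2) := by
  rw [e_apply, ev_coe, expand_eval]

lemma rescale_e (q : ℤ_[p][X]) : PowerSeries.rescale (-1 : ℤ_[p]) (e q) = e q := by
  have h : (PowerSeries.rescale (-1 : ℤ_[p])).comp e = e := by
    apply Polynomial.ringHom_ext
    · intro c
      rw [RingHom.comp_apply, e_C]
      ext n
      rw [PowerSeries.coeff_rescale, PowerSeries.coeff_C]
      split_ifs with hn
      · rw [hn, pow_zero, one_mul]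
      · rw [mul_zero]
    · rw [RingHom.comp_apply, e_X, map_pow, PowerSeries.rescale_X, mul_pow, ← map_pow]
      simp
  exact congrArg (fun φ : ℤ_[p][X] →+* PowerSeries ℤ_[p] => φ q) h

lemma even_of {w : PowerSeries ℤ_[p]} {q : ℤ_[p][X]} (hw : w ^ 2 = e q)
    (h1 : PowerSeries.constantCoeff w = 1) : PowerSeries.rescale (-1 : ℤ_[p]) w = w := by
  have h2 : (PowerSeries.rescale (-1 : ℤ_[p]) w) ^ 2 = w ^ 2 := by
    rw [← map_pow, hw, rescale_e]
  rcases sq_eq_sq_iff_eq_or_eq_neg.1 h2 with h3 | h3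
  · exact h3
  · exfalso
    have h4 := congrArg (PowerSeries.coeff 0) h3
    rw [PowerSeries.coeff_rescale, pow_zero, one_mul, map_neg, PowerSeries.coeff_zero_eq_constantCoeff,
      h1] at h4
    have h5 : (2 : ℤ_[p]) = 0 := by linear_combination h4
    exact two_ne_zero h5

lemma odd_coeff {G : PowerSeries ℤ_[p]} (h : PowerSeries.rescale (-1 : ℤ_[p]) G = G) {n : ℕ}
    (hn : Odd n) : PowerSeries.coeff n G = 0 := by
  have h1 := congrArg (PowerSeries.coeff n) h
  rw [PowerSeries.coeff_rescale, hn.neg_one_pow] at h1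
  have h2 : (2 : ℤ_[p]) * PowerSeries.coeff n G = 0 := by linear_combination -h1
  exact (mul_eq_zero.1 h2).resolve_left two_ne_zero

/-- the inverse -/
lemma exists_inv {w : PowerSeries ℤ_[p]} (h1 : PowerSeries.constantCoeff w = 1)
    (h2 : PowerSeries.rescale (-1 : ℤ_[p]) w = w) : ∃ w' : PowerSeries ℤ_[p], w * w' = 1 ∧
      PowerSeries.rescale (-1 : ℤ_[p]) w' = w' ∧ PowerSeries.constantCoeff w' = 1 := by
  have hu : IsUnit w := by
    rw [PowerSeries.isUnit_iff_constantCoeff, h1]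
    exact isUnit_one
  obtain ⟨w', hw⟩ := hu.exists_right_inv
  refine ⟨w', hw, ?_, ?_⟩
  · apply hu.mul_left_cancel
    rw [hw]
    conv_lhs => rw [← h2]
    rw [← map_mul, hw, map_one]
  · have := congrArg PowerSeries.constantCoeff hw
    rw [map_mul, h1, one_mul, map_one] at this
    exact this

end Pool.Agent.K9h33.ORP
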