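import Pool.Agent.K9h33.ORP.Ev

/-!
The coefficient of `X ^ (N - 1)` in `(X - τ) ^ N V`, norms from the coordinate ring, products of power series.
-/

set_option autoImplicit false

namespace Pool.Agent.K9h33.ORP

open Polynomial

variable {p : ℕ} [Fact p.Prime]

lemma lt_three_pow (k : ℕ) : k + 2 < 3 ^ (k + 1) := by
  induction k with
  | zero => norm_num
  | succ k ih =>
    rw [pow_succ]
    omega

lemma norm_nat_gt (hp : p ≠ 2) {τ : ℤ_[p]} (hτ : ‖τ‖ < 1) (k : ℕ) :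
    ‖τ‖ ^ (k + 1) < ‖((k + 2 : ℕ) : ℤ_[p])‖ := by
  have hpp : p.Prime := Fact.out
  have hp3 : 3 ≤ p := by
    have := hpp.two_le
    omega
  by_contra hcon
  rw [not_lt] at hcon
  obtain ⟨τ', hτ'⟩ := (PadicInt.norm_lt_one_iff_dvd τ).1 hτ
  have h1 : ‖τ‖ ≤ (p : ℝ)⁻¹ := by
    rw [hτ', norm_mul, PadicInt.norm_p]
    exact mul_le_of_le_one_right (by positivity) (PadicInt.norm_le_one _)
  have h2 : ‖τ‖ ^ (k + 1) ≤ (p : ℝ) ^ (-((k + 1 : ℕ) : ℤ)) := by
    rw [zpow_neg, zpow_natCast, ← inv_pow]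
    exact pow_le_pow_left₀ (norm_nonneg _) h1 _
  have h3 : ‖(((k + 2 : ℕ) : ℤ) : ℤ_[p])‖ ≤ (p : ℝ) ^ (-((k + 1 : ℕ) : ℤ)) := by
    rw [Int.cast_natCast]
    exact hcon.trans h2
  rw [PadicInt.norm_int_le_pow_iff_dvd] at h3
  have h4 : p ^ (k + 1) ∣ k + 2 := by exact_mod_cast h3
  have h5 := Nat.le_of_dvd (by omega) h4
  have h6 : 3 ^ (k + 1) ≤ p ^ (k + 1) := Nat.pow_le_pow_left hp3 _
  have h7 := lt_three_pow k
  omega

lemma sum_norm_lt {ι : Type} [DecidableEq ι] (s : Finset ι) (F : ι → ℤ_[p]) {c : ℝ} (hc : 0 < c)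
    (h : ∀ i ∈ s, ‖F i‖ < c) : ‖∑ i ∈ s, F i‖ < c := by
  induction s using Finset.induction_on with
  | empty => simpa using hc
  | insert a s ha ih =>
    rw [Finset.sum_insert ha]
    refine lt_of_le_of_lt (PadicInt.nonarchimedean _ _) (max_lt (h a (Finset.mem_insert_self a s)) ?_)
    exact ih fun i hi => h i (Finset.mem_insert_of_mem hi)

lemma coeff_pow' (τ : ℤ_[p]) (N k : ℕ) :
    PowerSeries.coeff k ((PowerSeries.X - PowerSeries.C τ) ^ N : PowerSeries ℤ_[p]) =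
      (-τ) ^ (N - k) * (N.choose k : ℤ_[p]) := by
  have h : ((PowerSeries.X - PowerSeries.C τ) ^ N : PowerSeries ℤ_[p]) =
      (((X - C τ) ^ N : ℤ_[p][X]) : PowerSeries ℤ_[p]) := by
    rw [Polynomial.coe_pow, Polynomial.coe_sub, Polynomial.coe_X, Polynomial.coe_C]
  rw [h, Polynomial.coeff_coe, sub_eq_add_neg, ← C_neg, Polynomial.coeff_X_add_C_pow]

lemma final_ne (hp : p ≠ 2) {τ : ℤ_[p]} (hτ : ‖τ‖ < 1) (hτ0 : τ ≠ 0) (m : ℕ)
    {V : PowerSeries ℤ_[p]} (hV : ‖PowerSeries.constantCoeff V‖ = 1) :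
    PowerSeries.coeff m ((PowerSeries.X - PowerSeries.C τ) ^ (m + 1) * V) ≠ 0 := by
  intro h0
  rw [PowerSeries.coeff_mul] at h0
  have hmem : ((m, 0) : ℕ × ℕ) ∈ Finset.HasAntidiagonal.antidiagonal m := by
    rw [Finset.HasAntidiagonal.mem_antidiagonal]
    simp
  rw [← Finset.add_sum_erase _ _ hmem] at h0
  obtain ⟨c, hcdef⟩ : ∃ c : ℝ, c = ‖((m + 1 : ℕ) : ℤ_[p])‖ * ‖τ‖ := ⟨_, rfl⟩
  have hN0 : (0 : ℝ) < ‖((m + 1 : ℕ) : ℤ_[p])‖ :=
    norm_pos_iff.2 (by exact_mod_cast Nat.succ_ne_zero m)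
  have hτp : (0 : ℝ) < ‖τ‖ := norm_pos_iff.2 hτ0
  have hc : 0 < c := by
    rw [hcdef]
    exact mul_pos hN0 hτp
  have hmain : ‖PowerSeries.coeff m ((PowerSeries.X - PowerSeries.C τ) ^ (m + 1) : PowerSeries ℤ_[p]) *
      PowerSeries.coeff 0 V‖ = c := by
    rw [coeff_pow', Nat.choose_succ_self_right, PowerSeries.coeff_zero_eq_constantCoeff, norm_mul,
      norm_mul, hV, mul_one, norm_pow, norm_neg, hcdef, show m + 1 - m = 1 by omega, pow_one]
    exact mul_comm _ _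
  have hrest : ‖∑ x ∈ (Finset.HasAntidiagonal.antidiagonal m).erase (m, 0),
      PowerSeries.coeff x.1 ((PowerSeries.X - PowerSeries.C τ) ^ (m + 1) : PowerSeries ℤ_[p]) *
        PowerSeries.coeff x.2 V‖ < c := by
    apply sum_norm_lt _ _ hc
    rintro ⟨k, l⟩ hkl
    rw [Finset.mem_erase, Finset.HasAntidiagonal.mem_antidiagonal] at hkl
    obtain ⟨hne, hsum⟩ := hkl
    simp only at hsum
    have hl : l ≠ 0 := by
      rintro rfl
      exact hne (by rw [← hsum, add_zero])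
    obtain ⟨i, rfl⟩ : ∃ i, l = i + 1 := ⟨l - 1, by omega⟩
    have hk : m + 1 - k = i + 2 := by omega
    show ‖PowerSeries.coeff k ((PowerSeries.X - PowerSeries.C τ) ^ (m + 1) : PowerSeries ℤ_[p]) *
        PowerSeries.coeff (i + 1) V‖ < c
    rw [coeff_pow', hk]
    have hch : (m + 1).choose k = (m + 1).choose (i + 2) := by
      rw [← Nat.choose_symm (show k ≤ m + 1 by omega), hk]
    rw [hch]
    have hid : (((m + 1).choose (i + 2) : ℕ) : ℤ_[p]) * ((i + 2 : ℕ) : ℤ_[p]) =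
        ((m + 1 : ℕ) : ℤ_[p]) * ((m.choose (i + 1) : ℕ) : ℤ_[p]) := by
      have := Nat.add_one_mul_choose_eq m (i + 1)
      exact_mod_cast this.symm
    have hn := congrArg norm hid
    rw [norm_mul, norm_mul] at hn
    have hcp : (0 : ℝ) < ‖(((m + 1).choose (i + 2) : ℕ) : ℤ_[p])‖ := by
      refine norm_pos_iff.2 ?_
      have : (m + 1).choose (i + 2) ≠ 0 := (Nat.choose_pos (by omega)).ne'
      exact_mod_cast this
    have h1 := norm_nat_gt hp hτ i
    have h2 : ‖((m.choose (i + 1) : ℕ) : ℤ_[p])‖ ≤ 1 := PadicInt.norm_le_one _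
    have h3 : ‖PowerSeries.coeff (i + 1) V‖ ≤ 1 := PadicInt.norm_le_one _
    rw [norm_mul, norm_mul, norm_pow, norm_neg]
    calc ‖τ‖ ^ (i + 2) * ‖(((m + 1).choose (i + 2) : ℕ) : ℤ_[p])‖ * ‖PowerSeries.coeff (i + 1) V‖
        ≤ ‖τ‖ ^ (i + 2) * ‖(((m + 1).choose (i + 2) : ℕ) : ℤ_[p])‖ :=
          mul_le_of_le_one_right (by positivity) h3
      _ = ‖τ‖ * ‖(((m + 1).choose (i + 2) : ℕ) : ℤ_[p])‖ * ‖τ‖ ^ (i + 1) := by ring
      _ < ‖τ‖ * ‖(((m + 1).choose (i + 2) : ℕ) : ℤ_[p])‖ * ‖((i + 2 : ℕ) : ℤ_[p])‖ :=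
          mul_lt_mul_of_pos_left h1 (by positivity)
      _ = ‖τ‖ * (‖((m + 1 : ℕ) : ℤ_[p])‖ * ‖((m.choose (i + 1) : ℕ) : ℤ_[p])‖) := by
          rw [mul_assoc, hn]
      _ ≤ ‖τ‖ * (‖((m + 1 : ℕ) : ℤ_[p])‖ * 1) := by gcongr
      _ = c := by
          rw [hcdef, mul_one, mul_comm]
  have h4 := eq_neg_of_add_eq_zero_left h0
  rw [h4, norm_neg] at hmain
  exact absurd hmain hrest.ne

/-- norms of elements of the coordinate ring -/
lemma parity {k : Type} [Field k] {f A B : k[X]} {n : ℕ} (hm : f.Monic) (hd : f.natDegree = n)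
    (hn : Odd n) (h : ¬ (A = 0 ∧ B = 0)) : A ^ 2 - f * B ^ 2 ≠ 0 ∧
      ((A ^ 2 - f * B ^ 2).natDegree = 0 → B = 0 ∧ A.natDegree = 0) := by
  have hn1 : 1 ≤ n := hn.pos
  by_cases hB : B = 0
  · have hA : A ≠ 0 := fun h0 => h ⟨h0, hB⟩
    rw [hB, zero_pow two_ne_zero, mul_zero, sub_zero]
    refine ⟨pow_ne_zero 2 hA, fun h1 => ⟨rfl, ?_⟩⟩
    rw [natDegree_pow] at h1
    omega
  · have h1 : (f * B ^ 2).natDegree = n + 2 * B.natDegree := by
      rw [natDegree_mul hm.ne_zero (pow_ne_zero 2 hB), hd, natDegree_pow]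
    have h2 : (A ^ 2).natDegree = 2 * A.natDegree := natDegree_pow A 2
    obtain ⟨r, hr⟩ := hn
    rcases Nat.lt_trichotomy (A ^ 2).natDegree (f * B ^ 2).natDegree with h3 | h3 | h3
    · have h4 : (A ^ 2 - f * B ^ 2).natDegree = (f * B ^ 2).natDegree :=
        natDegree_sub_eq_right_of_natDegree_lt h3
      refine ⟨?_, fun h5 => by omega⟩
      intro h5
      rw [h5, natDegree_zero] at h4
      omega
    · omega
    · have h4 : (A ^ 2 - f * B ^ 2).natDegree = (A ^ 2).natDegree :=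
        natDegree_sub_eq_left_of_natDegree_lt h3
      refine ⟨?_, fun h5 => by omega⟩
      intro h5
      rw [h5, natDegree_zero] at h4
      omega

/-- factors of a power of `X` -/
lemma unit_part {γ : ℤ_[p]} (hγ : IsUnit γ) : ∀ (E : ℕ) (U V : PowerSeries ℤ_[p]),
    U * V = PowerSeries.C γ * PowerSeries.X ^ E →
      ∃ (i : ℕ) (U' : PowerSeries ℤ_[p]), IsUnit U' ∧ U = PowerSeries.X ^ i * U' := by
  intro E
  induction E with
  | zero =>
    intro U V h
    rw [pow_zero, mul_one] at h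
    have h1 : IsUnit (U * V) := by
      rw [h]
      exact hγ.map PowerSeries.C
    exact ⟨0, U, isUnit_of_mul_isUnit_left h1, by rw [pow_zero, one_mul]⟩
  | succ E ih =>
    intro U V h
    have h1 : PowerSeries.constantCoeff U * PowerSeries.constantCoeff V = 0 := by
      rw [← map_mul, h, map_mul, map_pow, PowerSeries.constantCoeff_X,
        zero_pow (Nat.succ_ne_zero _), mul_zero]
    rcases mul_eq_zero.1 h1 with h2 | h2
    · obtain ⟨U₁, hU₁⟩ := PowerSeries.X_dvd_iff.2 h2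
      have h3 : U₁ * V = PowerSeries.C γ * PowerSeries.X ^ E := by
        apply mul_left_cancel₀ (PowerSeries.X_ne_zero (R := ℤ_[p]))
        rw [← mul_assoc, ← hU₁, h, pow_succ']
        ring
      obtain ⟨i, U', hU', hi⟩ := ih U₁ V h3
      exact ⟨i + 1, U', hU', by rw [hU₁, hi, pow_succ', mul_assoc]⟩
    · obtain ⟨V₁, hV₁⟩ := PowerSeries.X_dvd_iff.2 h2
      have h3 : U * V₁ = PowerSeries.C γ * PowerSeries.X ^ E := by
        apply mul_left_cancel₀ (PowerSeries.X_ne_zero (R := ℤ_[p]))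
        have h4 : PowerSeries.X * (U * V₁) = U * V := by
          rw [hV₁]
          ring
        rw [h4, h, pow_succ']
        ring
      exact ih U V₁ h3

/-- `reflect` of the powers of `1 - σ X` -/
lemma reflect_one_sub (σ : ℤ_[p]) (N : ℕ) : ((1 - C σ * X) ^ N : ℤ_[p][X]).natDegree ≤ N ∧
    reflect N ((1 - C σ * X) ^ N : ℤ_[p][X]) = (X - C σ) ^ N := by
  have hd1 : (1 - C σ * X : ℤ_[p][X]).natDegree ≤ 1 := by
    refine (natDegree_sub_le _ _).trans (max_le ?_ ?_)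
    · rw [natDegree_one]
      exact Nat.zero_le _
    · exact (natDegree_C_mul_le _ _).trans natDegree_X_le
  have hr1 : reflect 1 (1 - C σ * X : ℤ_[p][X]) = X - C σ := by
    have h1 : (1 - C σ * X : ℤ_[p][X]) = C 1 * X ^ 0 + C (-σ) * X ^ 1 := by
      rw [C_neg, C_1, pow_zero, pow_one]
      ring
    rw [h1, reflect_add, reflect_C_mul_X_pow, reflect_C_mul_X_pow, revAt_le (by omega),
      revAt_le le_rfl, C_neg, C_1, Nat.sub_zero, Nat.sub_self, pow_one, pow_zero]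
    ring
  induction N with
  | zero =>
    refine ⟨by simp, ?_⟩
    rw [pow_zero, pow_zero]
    have h1 : (1 : ℤ_[p][X]) = C 1 * X ^ 0 := by simp
    rw [h1, reflect_C_mul_X_pow, revAt_le (by omega)]
  | succ N ih =>
    refine ⟨?_, ?_⟩
    · rw [pow_succ]
      exact natDegree_mul_le.trans (Nat.add_le_add ih.1 hd1)
    · rw [pow_succ, reflect_mul _ _ ih.1 hd1, ih.2, hr1, pow_succ]

lemma reflect_one' (k : ℕ) : reflect k (1 : ℤ_[p][X]) = X ^ k := by
  have h1 : (1 : ℤ_[p][X]) = C 1 * X ^ 0 := by simp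
  rw [h1, reflect_C_mul_X_pow, revAt_le (by omega), C_1, one_mul, Nat.sub_zero]

/-- raising the degree -/
lemma reflect_raise {N k : ℕ} {P : ℤ_[p][X]} (hP : P.natDegree ≤ N) :
    reflect (N + k) P = reflect N P * X ^ k := by
  have := reflect_mul P 1 hP (show (1 : ℤ_[p][X]).natDegree ≤ k by rw [natDegree_one]; omega)
  rw [mul_one, reflect_one'] at this
  exact this

end Pool.Agent.K9h33.ORP
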