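import Mathlib

/-!
The coordinate ring `K[x, y] / (y ^ 2 - h(x))`, the ideal of a point and its powers.
-/

set_option autoImplicit false

namespace Pool.Agent.K9h33.ORP

open Polynomial

variable {K : Type} [Field K] (h : K[X])

/-- the coordinate ring -/
abbrev CR : Type := AdjoinRoot (X ^ 2 - C h : K[X][X])

/-- the polynomials in `x` -/
noncomputable abbrev io : K[X] →+* CR h := AdjoinRoot.of _

/-- the function `y` -/
noncomputable abbrev yy : CR h := AdjoinRoot.root _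

/-- the ideal of the point `(a, b)` -/
noncomputable def PI (a b : K) : Ideal (CR h) := Ideal.span {io h (X - C a), yy h - io h (C b)}

lemma yy_sq : yy h ^ 2 = io h h := by
  have := AdjoinRoot.eval₂_root (X ^ 2 - C h : K[X][X])
  rw [eval₂_sub, eval₂_X_pow, eval₂_C, sub_eq_zero] at this
  exact this

lemma mon2 : (X ^ 2 - C h : K[X][X]).Monic := monic_X_pow_sub_C _ two_ne_zero

lemma nd2 : (X ^ 2 - C h : K[X][X]).natDegree = 2 := natDegree_X_pow_sub_C

lemma exists_rep (z : CR h) : ∃ A B : K[X], z = io h A + io h B * yy h := by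
  obtain ⟨P, rfl⟩ := AdjoinRoot.mk_surjective z
  have h1 : AdjoinRoot.mk (X ^ 2 - C h : K[X][X]) P =
      AdjoinRoot.mk (X ^ 2 - C h : K[X][X]) (P %ₘ (X ^ 2 - C h)) := by
    rw [AdjoinRoot.mk_eq_mk]
    refine ⟨P /ₘ (X ^ 2 - C h), ?_⟩
    have := modByMonic_add_div P (X ^ 2 - C h)
    linear_combination -this
  have h2 : (P %ₘ (X ^ 2 - C h)).natDegree ≤ 1 := by
    have := natDegree_modByMonic_lt P (mon2 h) (by
      intro h0
      have := congrArg natDegree h0
      rw [nd2, natDegree_one] at this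
      exact two_ne_zero this)
    rw [nd2] at this
    omega
  obtain ⟨c, d, hcd⟩ := exists_eq_X_add_C_of_natDegree_le_one h2
  refine ⟨d, c, ?_⟩
  rw [h1, hcd, map_add, map_mul, AdjoinRoot.mk_C, AdjoinRoot.mk_C, AdjoinRoot.mk_X, add_comm]

lemma rep_inj {A B A' B' : K[X]} (e : io h A + io h B * yy h = io h A' + io h B' * yy h) :
    A = A' ∧ B = B' := by
  have h1 : AdjoinRoot.mk (X ^ 2 - C h : K[X][X]) (C (B - B') * X + C (A - A')) = 0 := by
    rw [map_add, map_mul, AdjoinRoot.mk_C, AdjoinRoot.mk_C, AdjoinRoot.mk_X, map_sub, map_sub]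
    linear_combination e
  rw [AdjoinRoot.mk_eq_zero] at h1
  have h2 : (C (B - B') * X + C (A - A') : K[X][X]) = 0 := by
    by_contra h3
    have h4 := natDegree_le_of_dvd h1 h3
    have h5 : (C (B - B') * X + C (A - A') : K[X][X]).natDegree ≤ 1 := natDegree_linear_le
    rw [nd2] at h4
    omega
  have h3 := congrArg (fun P : K[X][X] => P.coeff 0) h2
  have h4 := congrArg (fun P : K[X][X] => P.coeff 1) h2
  simp only [coeff_add, coeff_C_mul, coeff_X_zero, mul_zero, zero_add, coeff_C_zero, coeff_zero]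
    at h3
  simp only [coeff_add, coeff_C_mul, coeff_X_one, mul_one, coeff_C_succ, add_zero, coeff_zero]
    at h4
  exact ⟨sub_eq_zero.1 h3, sub_eq_zero.1 h4⟩

/-- the value at a point -/
noncomputable def evp {a b : K} (hb : b ^ 2 = h.eval a) : CR h →+* K :=
  AdjoinRoot.lift (evalRingHom a) b (by
    rw [eval₂_sub, eval₂_X_pow, eval₂_C, coe_evalRingHom, hb, sub_self])

lemma evp_io {a b : K} (hb : b ^ 2 = h.eval a) (A : K[X]) : evp h hb (io h A) = A.eval a := by
  unfold evp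
  rw [AdjoinRoot.lift_of, coe_evalRingHom]

lemma evp_yy {a b : K} (hb : b ^ 2 = h.eval a) : evp h hb (yy h) = b := by
  unfold evp
  rw [AdjoinRoot.lift_root]

/-- `(y - b) (y + b)` is a multiple of `x - a` -/
lemma vv {a b : K} (hb : b ^ 2 = h.eval a) : ∃ w : CR h,
    (yy h - io h (C b)) * (yy h + io h (C b)) = io h (X - C a) * w := by
  have h1 : (X - C a) ∣ h - C (h.eval a) := X_sub_C_dvd_sub_C_eval
  obtain ⟨q, hq⟩ := h1
  refine ⟨io h q, ?_⟩
  rw [← map_mul, ← hq, map_sub, ← yy_sq, ← hb, C_pow, map_pow]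
  ring

lemma data {a b : K} (hdom : IsDomain (CR h)) (hb : b ^ 2 = h.eval a) (hb0 : b ≠ 0)
    (h2 : (2 : K) ≠ 0) (m : ℕ) (φ : CR h) (hI : PI h a b ^ (m + 1) = Ideal.span {φ}) :
    ∃ A₁ B₁ A₂ B₂ : K[X], A₁ * A₂ + h * B₁ * B₂ = (X - C a) ^ (m + 1) ∧ A₁ * B₂ + A₂ * B₁ = 0 ∧
      A₁.eval a + (-b) * B₁.eval a ≠ 0 ∧ A₂.eval a + b * B₂.eval a ≠ 0 := by
  obtain ⟨u, hu⟩ : ∃ u, u = io h (X - C a) := ⟨_, rfl⟩
  obtain ⟨v, hv⟩ : ∃ v, v = yy h - io h (C b) := ⟨_, rfl⟩
  obtain ⟨v', hv'⟩ : ∃ v', v' = yy h + io h (C b) := ⟨_, rfl⟩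
  obtain ⟨w, hw⟩ := vv h hb
  rw [← hu, ← hv, ← hv'] at hw
  have hIe : PI h a b = Ideal.span {u, v} := by
    unfold PI
    rw [hu, hv]
  rw [hIe] at hI
  have hu1 : u ^ (m + 1) ∈ Ideal.span {φ} := by
    rw [← hI]
    exact Ideal.pow_mem_pow (Ideal.subset_span (by simp)) _
  have hv1 : v ^ (m + 1) ∈ Ideal.span {φ} := by
    rw [← hI]
    exact Ideal.pow_mem_pow (Ideal.subset_span (by simp)) _
  rw [Ideal.mem_span_singleton] at hu1 hv1
  obtain ⟨χ, hχ⟩ := hu1
  obtain ⟨ξ, hξ⟩ := hv1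
  have hφv : φ * v' ^ (m + 1) ∈ Ideal.span {u ^ (m + 1)} := by
    have e1 : (Ideal.span {u, v} * Ideal.span {v'}) ≤ Ideal.span {u} := by
      rw [Ideal.span_mul_span', Ideal.span_le]
      rintro _ ⟨x, hx, y, hy, rfl⟩
      rw [Set.mem_singleton_iff] at hy
      rw [SetLike.mem_coe, Ideal.mem_span_singleton]
      rcases hx with rfl | hx
      · exact dvd_mul_right _ _
      · rw [Set.mem_singleton_iff] at hx
        refine ⟨w, ?_⟩
        simp only [hx, hy]
        exact hw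
    have e2 : (Ideal.span {u, v} * Ideal.span {v'}) ^ (m + 1) ≤ Ideal.span {u} ^ (m + 1) :=
      Ideal.pow_right_mono e1 _
    rw [Ideal.span_singleton_pow, mul_pow, hI, Ideal.span_singleton_pow] at e2
    exact e2 (Ideal.mul_mem_mul (Ideal.mem_span_singleton_self _) (Ideal.mem_span_singleton_self _))
  rw [Ideal.mem_span_singleton] at hφv
  obtain ⟨ζ, hζ⟩ := hφv
  have hu0 : u ≠ 0 := by
    intro h0
    have h1 : io h (X - C a) + io h 0 * yy h = io h 0 + io h 0 * yy h := by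
      rw [← hu, h0, map_zero]
    exact X_sub_C_ne_zero a (rep_inj h h1).1
  have hφ0 : φ ≠ 0 := by
    intro h0
    rw [h0, zero_mul] at hχ
    exact pow_ne_zero _ hu0 hχ
  have hvχ : v' ^ (m + 1) = χ * ζ := by
    apply mul_left_cancel₀ hφ0
    rw [hζ, hχ]
    ring
  obtain ⟨A₁, B₁, h1⟩ := exists_rep h φ
  obtain ⟨A₂, B₂, h4⟩ := exists_rep h χ
  have hbb : b + b ≠ 0 := by
    rw [← two_mul]
    exact mul_ne_zero h2 hb0
  refine ⟨A₁, B₁, A₂, B₂, ?_, ?_, ?_, ?_⟩
  · have e : io h (A₁ * A₂ + h * B₁ * B₂) + io h (A₁ * B₂ + A₂ * B₁) * yy h =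
        io h ((X - C a) ^ (m + 1)) + io h 0 * yy h := by
      rw [map_pow, ← hu, hχ, h1, h4]
      simp only [map_add, map_mul, map_zero]
      rw [← yy_sq]
      ring
    exact (rep_inj h e).1
  · have e : io h (A₁ * A₂ + h * B₁ * B₂) + io h (A₁ * B₂ + A₂ * B₁) * yy h =
        io h ((X - C a) ^ (m + 1)) + io h 0 * yy h := by
      rw [map_pow, ← hu, hχ, h1, h4]
      simp only [map_add, map_mul, map_zero]
      rw [← yy_sq]
      ring
    exact (rep_inj h e).2
  · have hb' : (-b) ^ 2 = h.eval a := by rw [neg_sq, hb]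
    have e : evp h hb' φ = A₁.eval a + (-b) * B₁.eval a := by
      rw [h1, map_add, map_mul, evp_io, evp_io, evp_yy]
      ring
    rw [← e]
    intro h0
    have e2 := congrArg (evp h hb') hξ
    rw [map_mul, h0, zero_mul, map_pow, hv, map_sub, evp_yy, evp_io, eval_C] at e2
    have e3 := eq_zero_of_pow_eq_zero e2
    apply hbb
    linear_combination -e3
  · have e : evp h hb χ = A₂.eval a + b * B₂.eval a := by
      rw [h4, map_add, map_mul, evp_io, evp_io, evp_yy]
      ring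
    rw [← e]
    intro h0
    have e2 := congrArg (evp h hb) hvχ
    rw [map_mul, h0, zero_mul, map_pow, hv', map_add, evp_yy, evp_io, eval_C] at e2
    exact hbb (eq_zero_of_pow_eq_zero e2)

end Pool.Agent.K9h33.ORP
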