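import Pool.Agent.K9h33.ORP.Core2
import Pool.Agent.K9h33.ORP.Tor
import Pool.Agent.K9h33.ORP.Cls
import Pool.Agent.K9h33.ORP.St

/-!
No power of the ideal of an affine point is principal.
-/

set_option autoImplicit false

namespace Pool.Agent.K9h33.ORP

open Polynomial NumberField

/-- powers of the ideal of a point of large `x` are not principal -/
theorem not_span {K : Type} [Field K] {h : K[X]} (hdom : IsDomain (CR h)) {a b : K}
    (hb : b ^ 2 = h.eval a) (hb0 : b ≠ 0) {p : ℕ} [Fact p.Prime] (hp : p ≠ 2) (ρ : K →+* ℚ_[p])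
    {g : ℕ} (hg : 1 ≤ g) {f : ℤ_[p][X]} (hm : f.Monic) (hd : f.natDegree = 2 * g + 1)
    (hf : f.map (ι p) = h.map ρ) (ha : 1 < ‖ρ a‖) (m : ℕ) (φ : CR h) :
    PI h a b ^ (m + 1) ≠ Ideal.span {φ} := by
  intro hI
  have h2 : (2 : K) ≠ 0 := by
    intro h0
    have := congrArg ρ h0
    rw [map_ofNat, map_zero] at this
    exact two_ne_zero this
  obtain ⟨A₁, B₁, A₂, B₂, h3, h4, h5, h6⟩ := data h hdom hb hb0 h2 m φ hI
  have hb' : ρ b ^ 2 = (f.map (ι p)).eval (ρ a) := by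
    rw [hf, eval_map, ← map_pow, hb, eval₂_hom]
  refine core hp hg hm hd hb' ha m (A₁.map ρ) (B₁.map ρ) (A₂.map ρ) (B₂.map ρ) ?_ ?_ ?_ ?_
  · have := congrArg (Polynomial.map ρ) h3
    rw [Polynomial.map_add, Polynomial.map_mul, Polynomial.map_mul, Polynomial.map_mul,
      Polynomial.map_pow, Polynomial.map_sub, map_X, map_C] at this
    rw [hf]
    exact this
  · have := congrArg (Polynomial.map ρ) h4
    rw [Polynomial.map_add, Polynomial.map_mul, Polynomial.map_mul, Polynomial.map_zero] at this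
    exact this
  · intro h0
    apply h5
    apply ρ.injective
    rw [map_zero, ← h0, map_add, map_mul, map_neg, eval_map, eval_map, eval₂_hom, eval₂_hom]
  · intro h0
    apply h6
    apply ρ.injective
    rw [map_zero, ← h0, map_add, map_mul, eval_map, eval_map, eval₂_hom, eval₂_hom]

/-- the coordinate ring is a domain -/
theorem isDomain_CR {K : Type} [Field K] {h : K[X]} (hd : Odd h.natDegree) : IsDomain (CR h) := by
  have h1 : Irreducible (X ^ 2 - C h : K[X][X]) := by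
    rw [(mon2 h).irreducible_iff_roots_eq_zero_of_degree_le_three (by rw [nd2]) (by rw [nd2]; omega)]
    rw [Multiset.eq_zero_iff_forall_notMem]
    intro r hr
    rw [mem_roots (mon2 h).ne_zero, IsRoot.def, eval_sub, eval_pow, eval_X, eval_C, sub_eq_zero] at hr
    have h2 := congrArg natDegree hr
    rw [natDegree_pow] at h2
    rw [← h2] at hd
    exact (Nat.not_odd_iff_even.2 (even_two_mul _)) hd
  exact AdjoinRoot.isDomain_of_prime h1.prime

lemma f3_map {R S : Type} [CommRing R] [CommRing S] (φ : R →+* S) (g : ℕ) :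
    (f3 R g).map φ = f3 S g := by
  unfold f3
  rw [Polynomial.map_sub, Polynomial.map_sub, Polynomial.map_pow, map_X, Polynomial.map_one]

/-- the abscissa of a point is not integral -/
theorem norm_gt {g : ℕ} {f : ℤ_[3][X]} (hf3 : f.map (PadicInt.toZMod (p := 3)) = f3 (ZMod 3) g)
    {α β : ℚ_[3]} (hb : β ^ 2 = (f.map (ι 3)).eval α) : 1 < ‖α‖ := by
  by_contra hle
  rw [not_lt] at hle
  obtain ⟨α', rfl⟩ : ∃ α' : ℤ_[3], ι 3 α' = α := ⟨⟨α, hle⟩, rfl⟩
  rw [eval_map, eval₂_hom] at hb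
  have hβ : ‖β‖ ≤ 1 := by
    have h1 : ‖β‖ ^ 2 ≤ 1 := by
      rw [← norm_pow, hb]
      exact PadicInt.norm_le_one _
    nlinarith [norm_nonneg β]
  obtain ⟨β', rfl⟩ : ∃ β' : ℤ_[3], ι 3 β' = β := ⟨⟨β, hβ⟩, rfl⟩
  rw [← map_pow] at hb
  have h2 : β' ^ 2 = f.eval α' := Subtype.coe_injective hb
  have h3 := congrArg (PadicInt.toZMod (p := 3)) h2
  rw [map_pow, ← eval₂_hom, ← eval_map, hf3] at h3
  unfold f3 at h3
  rw [eval_sub, eval_sub, eval_pow, eval_X, eval_one] at h3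
  have h4 : ∀ x : ZMod 3, x ^ (2 * g + 1) = x := by
    intro x
    have h5 : ∀ x : ZMod 3, x = 0 ∨ x ^ 2 = 1 := by decide
    rcases h5 x with h | h
    · rw [h, zero_pow (by omega)]
    · rw [pow_succ, pow_mul, h, one_pow, one_mul]
  rw [h4, sub_self, zero_sub] at h3
  have h6 : ∀ y : ZMod 3, y ^ 2 ≠ -1 := by decide
  exact h6 _ h3

section nf

variable {F : Type} [Field F] [NumberField F]

lemma norm_int_le (ρ : F →+* ℚ_[3]) (x : 𝓞 F) : ‖ρ (x : F)‖ ≤ 1 := by
  have h1 : IsIntegral ℤ (x : F) := x.isIntegral_coe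
  have h2 : IsIntegral ℤ (ρ (x : F)) := h1.map (ρ.toIntAlgHom)
  have h3 : IsIntegral ℤ_[3] (ρ (x : F)) := h2.tower_top
  obtain ⟨y, hy⟩ := IsIntegrallyClosed.isIntegral_iff.1 h3
  rw [← hy]
  exact PadicInt.norm_le_one y

lemma exists_rr (ρ : F →+* ℚ_[3]) :
    ∃ r : 𝓞 F →+* ℤ_[3], (ι 3).comp r = ρ.comp (algebraMap (𝓞 F) F) := by
  have hinj : Function.Injective (ι 3) := Subtype.coe_injective
  obtain ⟨σ, hσ⟩ : ∃ σ : 𝓞 F →+* ℚ_[3], σ = ρ.comp (algebraMap (𝓞 F) F) := ⟨_, rfl⟩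
  rw [← hσ]
  have h1 : ∀ x : 𝓞 F, ∃ y : ℤ_[3], ι 3 y = σ x := by
    intro x
    rw [hσ]
    exact ⟨⟨ρ (x : F), norm_int_le ρ x⟩, rfl⟩
  choose s hs using h1
  refine ⟨{ toFun := s, map_one' := ?_, map_mul' := ?_, map_zero' := ?_, map_add' := ?_ }, ?_⟩
  · apply hinj
    rw [hs, map_one, map_one]
  · intro x y
    apply hinj
    rw [map_mul, hs, hs, hs, map_mul]
  · apply hinj
    rw [hs, map_zero, map_zero]
  · intro x y
    apply hinj
    rw [map_add, hs, hs, hs, map_add]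
  · exact RingHom.ext hs

/-- the integers of `F` in `ℤ_3` -/
noncomputable def rr (ρ : F →+* ℚ_[3]) : 𝓞 F →+* ℤ_[3] := (exists_rr ρ).choose

lemma rr_comp (ρ : F →+* ℚ_[3]) : (ι 3).comp (rr ρ) = ρ.comp (algebraMap (𝓞 F) F) :=
  (exists_rr ρ).choose_spec

lemma r3_map {g : ℕ} {f : (𝓞 F)[X]} (hf : R3 g f) (ρ : F →+* ℚ_[3]) :
    (f.map (rr ρ)).map (PadicInt.toZMod (p := 3)) = f3 (ZMod 3) g := by
  rw [Polynomial.map_map]
  obtain ⟨θ, hθ⟩ : ∃ θ : 𝓞 F →+* ZMod 3, θ = (PadicInt.toZMod (p := 3)).comp (rr ρ) := ⟨_, rfl⟩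
  rw [← hθ]
  have h3 : (3 : 𝓞 F) ∈ RingHom.ker θ := by
    rw [RingHom.mem_ker, map_ofNat]
    rfl
  have h1 := hf (RingHom.ker θ) (RingHom.ker_isPrime θ) h3
  have h2 := congrArg (Polynomial.map (Ideal.Quotient.lift (RingHom.ker θ) θ
    (fun _ h => (RingHom.mem_ker).1 h))) h1
  rw [f3_map, Polynomial.map_map, Ideal.Quotient.lift_comp_mk] at h2
  exact h2

open Pool.Agent.N783.PF (fF)

/-- no power of the ideal of an affine point is principal -/
theorem not_principal {g : ℕ} (hg : 1 ≤ g) {f : (𝓞 F)[X]} (hm : f.Monic)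
    (hd : f.natDegree = 2 * g + 1) (hi : Irreducible (fF f)) (hf : R3 g f) (ρ : F →+* ℚ_[3])
    {h : F[X]} (hh : h = fF f) {a b : F} (hb : b ^ 2 = h.eval a) (m : ℕ) (φ : CR h) :
    PI h a b ^ (m + 1) ≠ Ideal.span {φ} := by
  subst hh
  have hdF : (fF f).natDegree = 2 * g + 1 := by rw [hm.natDegree_map, hd]
  have hb0 : b ≠ 0 := by
    intro h0
    rw [h0, zero_pow two_ne_zero] at hb
    have h1 : (fF f).IsRoot a := hb.symm
    have h2 := natDegree_eq_of_degree_eq_some (n := 1) (degree_eq_one_of_irreducible_of_root hi h1)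
    omega
  have hmap : (f.map (rr ρ)).map (ι 3) = (fF f).map ρ := by
    rw [Polynomial.map_map, rr_comp, Polynomial.map_map]
  have hρb : ρ b ^ 2 = ((f.map (rr ρ)).map (ι 3)).eval (ρ a) := by
    rw [hmap, eval_map, ← map_pow, hb, eval₂_hom]
  exact not_span (isDomain_CR (by rw [hdF]; exact ⟨g, rfl⟩)) hb hb0 (by norm_num) ρ hg (hm.map _)
    (by rw [hm.natDegree_map, hd]) hmap (norm_gt (r3_map hf ρ) hρb) m φ

/-- product of the ideals of conjugate points -/
lemma PI_mul {K : Type} [Field K] (h : K[X]) {a b : K} (hb : b ^ 2 = h.eval a) (hb0 : b + b ≠ 0) :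
    PI h a b * PI h a (-b) = Ideal.span {io h (X - C a)} := by
  obtain ⟨w, hw⟩ := vv h hb
  obtain ⟨u, hu⟩ : ∃ u, u = io h (X - C a) := ⟨_, rfl⟩
  obtain ⟨v, hv⟩ : ∃ v, v = yy h - io h (C b) := ⟨_, rfl⟩
  obtain ⟨v', hv'⟩ : ∃ v', v' = yy h + io h (C b) := ⟨_, rfl⟩
  have e1 : PI h a b = Ideal.span {u, v} := by
    unfold PI
    rw [hu, hv]
  have e2 : PI h a (-b) = Ideal.span {u, v'} := by
    unfold PI
    rw [hu, hv', C_neg, map_neg, sub_neg_eq_add]
  rw [← hu, ← hv, ← hv'] at hw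
  rw [e1, e2, ← hu]
  apply le_antisymm
  · rw [Ideal.span_mul_span', Ideal.span_le]
    rintro _ ⟨x, hx, y, hy, rfl⟩
    rw [SetLike.mem_coe, Ideal.mem_span_singleton]
    simp only [Set.mem_insert_iff, Set.mem_singleton_iff] at hx hy
    rcases hx with rfl | rfl
    · exact dvd_mul_right _ _
    · rcases hy with rfl | rfl
      · exact dvd_mul_left _ _
      · exact ⟨w, hw⟩
  · rw [Ideal.span_singleton_le_iff_mem]
    have h1 : u * v' ∈ Ideal.span {u, v} * Ideal.span {u, v'} :=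
      Ideal.mul_mem_mul (Ideal.subset_span (by simp)) (Ideal.subset_span (by simp))
    have h2 : v * u ∈ Ideal.span {u, v} * Ideal.span {u, v'} :=
      Ideal.mul_mem_mul (Ideal.subset_span (by simp)) (Ideal.subset_span (by simp))
    have h3 : io h (C (b + b)⁻¹) * (u * v' - v * u) ∈ Ideal.span {u, v} * Ideal.span {u, v'} :=
      Ideal.mul_mem_left _ _ (Ideal.sub_mem _ h1 h2)
    have h4 : io h (C (b + b)⁻¹) * (u * v' - v * u) = u := by
      have h5 : v' - v = io h (C (b + b)) := by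
        rw [hv', hv, C_add, map_add]
        ring
      have h6 : io h (C (b + b)⁻¹) * (u * v' - v * u) = io h (C (b + b)⁻¹) * (v' - v) * u := by
        ring
      rw [h6, h5, ← map_mul, ← C_mul, inv_mul_cancel₀ hb0, C_1, map_one, one_mul]
    rw [h4] at h3
    exact h3

end nf

end Pool.Agent.K9h33.ORP
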